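import Mathlib

set_option autoImplicit false

/-! # Project SD: greedy selections, elementary inequalities -/

namespace Pool.Agent.N679.SD

open Finset

/-- a separated choice from large finite sets -/
theorem sepseq (H N : ℕ) (F : ℕ → Finset ℤ) (hF : ∀ i < N, N * (2 * H + 1) < (F i).card) :
    ∀ k ≤ N, ∃ x : ℕ → ℤ, ∀ i < k, x i ∈ F i ∧ ∀ j < i, (H : ℤ) < |x i - x j| := by
  intro k
  induction k with
  | zero => intro _; exact ⟨fun _ => 0, fun i hi => absurd hi (Nat.not_lt_zero _)⟩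
  | succ k ih =>
    intro hk
    obtain ⟨x, hx⟩ := ih (by omega)
    set E : Finset ℤ := (range k).biUnion (fun j => Icc (x j - H) (x j + H)) with hE
    have hEc : E.card ≤ k * (2 * H + 1) := by
      refine (card_biUnion_le).trans ?_
      have h1 : ∀ j ∈ range k, (Icc (x j - (H : ℤ)) (x j + H)).card = 2 * H + 1 := by
        intro j _
        rw [Int.card_Icc]
        omega
      rw [Finset.sum_congr rfl h1, Finset.sum_const, card_range, smul_eq_mul]
    have h2 : E.card < (F k).card := by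
      have h3 := hF k (by omega)
      have h4 : k * (2 * H + 1) ≤ N * (2 * H + 1) := Nat.mul_le_mul_right _ (by omega)
      omega
    obtain ⟨y, hy, hyE⟩ := Finset.exists_mem_notMem_of_card_lt_card h2
    refine ⟨Function.update x k y, fun i hi => ?_⟩
    rcases Nat.lt_succ_iff_lt_or_eq.1 hi with h | h
    · have h3 : i ≠ k := h.ne
      rw [Function.update_of_ne h3]
      refine ⟨(hx i h).1, fun j hj => ?_⟩
      rw [Function.update_of_ne (by omega)]
      exact (hx i h).2 j hj
    · subst h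
      rw [Function.update_self]
      refine ⟨hy, fun j hj => ?_⟩
      rw [Function.update_of_ne (by omega)]
      by_contra hcon
      push Not at hcon
      apply hyE
      rw [hE, mem_biUnion]
      refine ⟨j, mem_range.2 hj, mem_Icc.2 ?_⟩
      have := abs_le.1 hcon
      constructor <;> linarith

/-- a separated choice from infinite sets -/
theorem sepinf (R : ℤ) (N : ℕ) (S : ℕ → Set ℤ) (hS : ∀ i < N, (S i).Infinite) :
    ∀ k ≤ N, ∃ x : ℕ → ℤ, ∀ i < k, x i ∈ S i ∧ R < |x i| ∧ ∀ j < i, R < |x i - x j| := by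
  intro k
  induction k with
  | zero => intro _; exact ⟨fun _ => 0, fun i hi => absurd hi (Nat.not_lt_zero _)⟩
  | succ k ih =>
    intro hk
    obtain ⟨x, hx⟩ := ih (by omega)
    set E : Finset ℤ := Icc (-R) R ∪ (range k).biUnion (fun j => Icc (x j - R) (x j + R)) with hE
    obtain ⟨y, hy, hyE⟩ := (hS k (by omega)).exists_notMem_finset E
    rw [hE, mem_union, not_or] at hyE
    refine ⟨Function.update x k y, fun i hi => ?_⟩
    rcases Nat.lt_succ_iff_lt_or_eq.1 hi with h | h
    · have h3 : i ≠ k := h.ne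
      rw [Function.update_of_ne h3]
      refine ⟨(hx i h).1, (hx i h).2.1, fun j hj => ?_⟩
      rw [Function.update_of_ne (by omega)]
      exact (hx i h).2.2 j hj
    · subst h
      rw [Function.update_self]
      refine ⟨hy, ?_, fun j hj => ?_⟩
      · by_contra hcon
        push Not at hcon
        apply hyE.1
        rw [mem_Icc]
        exact abs_le.1 hcon
      · rw [Function.update_of_ne (by omega)]
        by_contra hcon
        push Not at hcon
        apply hyE.2
        rw [mem_biUnion]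
        refine ⟨j, mem_range.2 hj, mem_Icc.2 ?_⟩
        have := abs_le.1 hcon
        constructor <;> linarith

/-- the four densities -/
theorem four_dens {ε u w a0 a1 b0 b1 : ℝ} (hε : 0 < ε) (hε1 : ε ≤ 1 / 40) (hu : u ≤ 1) (hw : w ≤ 1)
    (hua : u ≤ a0 + a1) (hwb : w ≤ b0 + b1) (h00 : a0 ≤ ε / 4 ∨ b0 ≤ ε / 4 ∨ a0 + b0 ≤ 5 / 9 - 3 * ε / 4)
    (h01 : a0 ≤ ε / 4 ∨ b1 ≤ ε / 4 ∨ a0 + b1 ≤ 5 / 9 - 3 * ε / 4)
    (h10 : a1 ≤ ε / 4 ∨ b0 ≤ ε / 4 ∨ a1 + b0 ≤ 5 / 9 - 3 * ε / 4)
    (h11 : a1 ≤ ε / 4 ∨ b1 ≤ ε / 4 ∨ a1 + b1 ≤ 5 / 9 - 3 * ε / 4) : u + w ≤ 10 / 9 - ε := by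
  rcases h00 with h00 | h00 | h00 <;> rcases h01 with h01 | h01 | h01 <;>
    rcases h10 with h10 | h10 | h10 <;> rcases h11 with h11 | h11 | h11 <;> linarith

/-- a point of positive weight at which a function is at most its mean -/
theorem exists_le_mean {Ω : Type} [Fintype Ω] (w f : Ω → ℝ) (hw : ∀ x, 0 ≤ w x) (hw1 : ∑ x, w x = 1) (c : ℝ)
    (h : ∑ x, w x * f x ≤ c) : ∃ x, 0 < w x ∧ f x ≤ c := by
  by_contra hcon
  push Not at hcon
  have h1 : ∀ x, w x * c ≤ w x * f x := by
    intro x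
    rcases (hw x).eq_or_lt with h2 | h2
    · rw [← h2, zero_mul, zero_mul]
    · exact mul_le_mul_of_nonneg_left (hcon x h2).le (hw x)
  obtain ⟨x, hx⟩ : ∃ x, 0 < w x := by
    by_contra hno
    push Not at hno
    have : ∑ x, w x ≤ 0 := Finset.sum_nonpos fun x _ => hno x
    linarith
  have h2 : ∑ x, w x * c < ∑ x, w x * f x :=
    Finset.sum_lt_sum (fun x _ => h1 x) ⟨x, mem_univ _, mul_lt_mul_of_pos_left (hcon x hx) hx⟩
  rw [← Finset.sum_mul, hw1, one_mul] at h2
  linarith

end Pool.Agent.N679.SD
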