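import Mathlib

set_option autoImplicit false

/-!
# Project SD: cliques of a random sample of a bipartite kernel
-/

namespace Pool.Agent.N679.SD

open Finset

/-! ### weighted exponential moments -/

/-- the weight of a sample -/
noncomputable def wt {n : ℕ} {Ω : Type} (w : Ω → ℝ) (x : Fin n → Ω) : ℝ := ∏ i, w (x i)

theorem wt_nonneg {n : ℕ} {Ω : Type} {w : Ω → ℝ} (hw : ∀ y, 0 ≤ w y) (x : Fin n → Ω) : 0 ≤ wt w x :=
  Finset.prod_nonneg fun _ _ => hw _

theorem sum_wt {n : ℕ} {Ω : Type} [Fintype Ω] {w : Ω → ℝ} (h1 : ∑ y, w y = 1) :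
    ∑ x : Fin n → Ω, wt w x = 1 := by
  unfold wt
  have := Fintype.sum_pow w n
  rw [h1, one_pow] at this
  exact this.symm

theorem one {Ω : Type} [Fintype Ω] {w : Ω → ℝ} (hw : ∀ y, 0 ≤ w y) (h1 : ∑ y, w y = 1) (g : Ω → ℝ)
    (hg : ∀ y, 0 ≤ g y ∧ g y ≤ 1) {l : ℝ} (hl : 0 ≤ l) (hl1 : l ≤ 1) :
    ∑ y, w y * Real.exp (l * (g y - ∑ z, w z * g z)) ≤ Real.exp (l ^ 2) := by
  set m : ℝ := ∑ z, w z * g z with hm
  have hm0 : 0 ≤ m := Finset.sum_nonneg fun z _ => mul_nonneg (hw z) (hg z).1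
  have hm1 : m ≤ 1 := by
    rw [hm, ← h1]
    refine Finset.sum_le_sum fun z _ => ?_
    nlinarith [hw z, (hg z).2]
  have hy : ∀ y, Real.exp (l * (g y - m)) ≤ 1 + l * (g y - m) + l ^ 2 := by
    intro y
    have h1 : |g y - m| ≤ 1 := by
      rw [abs_le]; constructor <;> linarith [(hg y).1, (hg y).2]
    have h2 : |l * (g y - m)| ≤ 1 := by
      rw [abs_mul, abs_of_nonneg hl]
      exact mul_le_one₀ hl1 (abs_nonneg _) h1
    have h3 := Real.abs_exp_sub_one_sub_id_le h2
    rw [abs_le] at h3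
    have h4 : (l * (g y - m)) ^ 2 ≤ l ^ 2 := by
      rw [mul_pow]
      have : (g y - m) ^ 2 ≤ 1 := by rw [← sq_abs]; exact pow_le_one₀ (abs_nonneg _) h1
      nlinarith [sq_nonneg l]
    linarith [h3.2]
  calc ∑ y, w y * Real.exp (l * (g y - m)) ≤ ∑ y, w y * (1 + l * (g y - m) + l ^ 2) :=
        Finset.sum_le_sum fun y _ => mul_le_mul_of_nonneg_left (hy y) (hw y)
    _ = 1 + l ^ 2 := by
        have e1 : ∀ y, w y * (1 + l * (g y - m) + l ^ 2) = w y * (1 + l ^ 2 - l * m) + l * (w y * g y) := by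
          intro y; ring
        rw [Finset.sum_congr rfl fun y _ => e1 y, Finset.sum_add_distrib, ← Finset.sum_mul, ← Finset.mul_sum,
          ← hm, h1]
        ring
    _ ≤ Real.exp (l ^ 2) := by
        have := Real.add_one_le_exp (l ^ 2)
        linarith

/-- merging -/
def mg {n : ℕ} {Ω : Type} (W : Finset (Fin n)) (x z : Fin n → Ω) : Fin n → Ω :=
  fun i => if i ∈ W then x i else z i

theorem mg_mg {n : ℕ} {Ω : Type} (W : Finset (Fin n)) (x z : Fin n → Ω) :
    mg W (mg W x z) (mg W z x) = x := by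
  funext i
  unfold mg
  by_cases h : i ∈ W <;> simp [h]

theorem wt_mg {n : ℕ} {Ω : Type} (w : Ω → ℝ) (W : Finset (Fin n)) (x z : Fin n → Ω) :
    wt w (mg W x z) * wt w (mg W z x) = wt w x * wt w z := by
  unfold wt
  rw [← Finset.prod_mul_distrib, ← Finset.prod_mul_distrib]
  apply Finset.prod_congr rfl
  intro i _
  unfold mg
  by_cases h : i ∈ W <;> simp [h, mul_comm]

/-- the exponential moment -/
theorem mom {n : ℕ} {Ω : Type} [Fintype Ω] {w : Ω → ℝ} (hw : ∀ y, 0 ≤ w y) (h1 : ∑ y, w y = 1)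
    (W : Finset (Fin n)) (f : (Fin n → Ω) → Fin n → Ω → ℝ)
    (hf : ∀ x i y, 0 ≤ f x i y ∧ f x i y ≤ 1) (hW : ∀ x x', (∀ i ∈ W, x i = x' i) → f x = f x')
    {l : ℝ} (hl : 0 ≤ l) (hl1 : l ≤ 1) :
    ∑ x : Fin n → Ω, wt w x * Real.exp (l * ∑ i ∈ univ \ W, (f x i (x i) - ∑ y, w y * f x i y)) ≤
      Real.exp (l ^ 2 * n) := by
  set F : (Fin n → Ω) → ℝ := fun x =>
    Real.exp (l * ∑ i ∈ univ \ W, (f x i (x i) - ∑ y, w y * f x i y)) with hF
  -- resampling
  have h2 : ∑ xz : (Fin n → Ω) × (Fin n → Ω), wt w xz.1 * wt w xz.2 * F (mg W xz.1 xz.2) =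
      ∑ xz : (Fin n → Ω) × (Fin n → Ω), wt w xz.1 * wt w xz.2 * F xz.1 := by
    refine Fintype.sum_equiv
      { toFun := fun xz => (mg W xz.1 xz.2, mg W xz.2 xz.1)
        invFun := fun xz => (mg W xz.1 xz.2, mg W xz.2 xz.1)
        left_inv := fun xz => by
          ext1
          · exact mg_mg W xz.1 xz.2
          · exact mg_mg W xz.2 xz.1
        right_inv := fun xz => by
          ext1
          · exact mg_mg W xz.1 xz.2
          · exact mg_mg W xz.2 xz.1 } _ _ ?_
    intro xz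
    show _ = wt w (mg W xz.1 xz.2) * wt w (mg W xz.2 xz.1) * F (mg W xz.1 xz.2)
    rw [wt_mg]
  have h3 : ∑ xz : (Fin n → Ω) × (Fin n → Ω), wt w xz.1 * wt w xz.2 * F xz.1 = ∑ x, wt w x * F x := by
    rw [Fintype.sum_prod_type]
    refine Finset.sum_congr rfl fun x _ => ?_
    have e1 : ∀ z : Fin n → Ω, wt w x * wt w z * F x = wt w z * (wt w x * F x) := fun z => by ring
    simp only [e1]
    rw [← Finset.sum_mul, sum_wt h1, one_mul]
  have h4 : ∀ x : Fin n → Ω, ∑ z, wt w z * F (mg W x z) ≤ Real.exp (l ^ 2 * n) := by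
    intro x
    have hfx : ∀ z, f (mg W x z) = f x := by
      intro z
      apply hW
      intro i hi
      unfold mg
      rw [if_pos hi]
    set G : Fin n → Ω → ℝ := fun i y =>
      if i ∈ W then w y else w y * Real.exp (l * (f x i y - ∑ y, w y * f x i y)) with hG
    have h5 : ∀ z, wt w z * F (mg W x z) = ∏ i, G i (z i) := by
      intro z
      have e1 : F (mg W x z) = ∏ i, (if i ∈ W then 1 else Real.exp (l * (f x i (z i) -
          ∑ y, w y * f x i y))) := by
        simp only [hF]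
        rw [hfx, Finset.mul_sum, Real.exp_sum, Finset.prod_ite, Finset.prod_const_one, one_mul]
        refine Finset.prod_congr (by ext i; simp) fun i hi => ?_
        rw [Finset.mem_filter] at hi
        unfold mg
        rw [if_neg hi.2]
      rw [e1]
      unfold wt
      rw [← Finset.prod_mul_distrib]
      refine Finset.prod_congr rfl fun i _ => ?_
      simp only [hG]
      split_ifs <;> simp
    have h6 : ∑ z, wt w z * F (mg W x z) = ∏ i, ∑ y, G i y := by
      rw [Finset.sum_congr rfl fun z _ => h5 z]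
      rw [Finset.prod_univ_sum, Fintype.piFinset_univ]
    rw [h6]
    have h7 : ∀ i, ∑ y, G i y ≤ Real.exp (l ^ 2) := by
      intro i
      simp only [hG]
      by_cases hi : i ∈ W
      · simp only [hi, if_true]
        rw [h1]
        exact Real.one_le_exp (sq_nonneg l)
      · simp only [hi, if_false]
        exact one hw h1 (f x i) (hf x i) hl hl1
    calc ∏ i, ∑ y, G i y ≤ ∏ _i : Fin n, Real.exp (l ^ 2) := by
          apply Finset.prod_le_prod
          · intro i _
            refine Finset.sum_nonneg fun y _ => ?_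
            simp only [hG]
            split_ifs
            · exact hw y
            · exact mul_nonneg (hw y) (Real.exp_pos _).le
          · intro i _
            exact h7 i
      _ = Real.exp (l ^ 2 * n) := by
          rw [Finset.prod_const, Finset.card_univ, Fintype.card_fin, ← Real.exp_nat_mul]
          congr 1
          ring
  rw [← h3, ← h2, Fintype.sum_prod_type]
  calc ∑ x, ∑ z, wt w x * wt w z * F (mg W x z) = ∑ x, wt w x * ∑ z, wt w z * F (mg W x z) := by
        refine Finset.sum_congr rfl fun x _ => ?_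
        rw [Finset.mul_sum]
        refine Finset.sum_congr rfl fun z _ => ?_
        ring
    _ ≤ ∑ x, wt w x * Real.exp (l ^ 2 * n) :=
        Finset.sum_le_sum fun x _ => mul_le_mul_of_nonneg_left (h4 x) (wt_nonneg hw x)
    _ = Real.exp (l ^ 2 * n) := by rw [← Finset.sum_mul, sum_wt h1, one_mul]

open Classical in
/-- the tail bound -/
theorem tail {n : ℕ} {Ω : Type} [Fintype Ω] {w : Ω → ℝ} (hw : ∀ y, 0 ≤ w y) (h1 : ∑ y, w y = 1)
    (W : Finset (Fin n)) (f : (Fin n → Ω) → Fin n → Ω → ℝ)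
    (hf : ∀ x i y, 0 ≤ f x i y ∧ f x i y ≤ 1) (hW : ∀ x x', (∀ i ∈ W, x i = x' i) → f x = f x')
    {δ : ℝ} (hδ : 0 < δ) (hδ1 : δ ≤ 1) :
    ∑ x : Fin n → Ω, wt w x * (if δ * n ≤ ∑ i ∈ univ \ W, (f x i (x i) - ∑ y, w y * f x i y) then 1 else 0) ≤
      Real.exp (-(δ ^ 2 * n / 4)) := by
  set l : ℝ := δ / 2 with hl
  have h2 := mom hw h1 W f hf hW (l := l) (by positivity) (by linarith)
  calc ∑ x : Fin n → Ω, wt w x *
        (if δ * n ≤ ∑ i ∈ univ \ W, (f x i (x i) - ∑ y, w y * f x i y) then 1 else 0)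
      ≤ ∑ x : Fin n → Ω, wt w x * Real.exp (l * ∑ i ∈ univ \ W, (f x i (x i) - ∑ y, w y * f x i y)) *
        Real.exp (-(l * (δ * n))) := by
        refine Finset.sum_le_sum fun x _ => ?_
        rw [mul_assoc]
        apply mul_le_mul_of_nonneg_left _ (wt_nonneg hw x)
        split_ifs with h
        · rw [← Real.exp_add]
          apply Real.one_le_exp
          have := mul_le_mul_of_nonneg_left h (by positivity : 0 ≤ l)
          linarith
        · positivity
    _ = (∑ x : Fin n → Ω, wt w x * Real.exp (l * ∑ i ∈ univ \ W, (f x i (x i) - ∑ y, w y * f x i y))) *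
        Real.exp (-(l * (δ * n))) := by rw [Finset.sum_mul]
    _ ≤ Real.exp (l ^ 2 * n) * Real.exp (-(l * (δ * n))) :=
        mul_le_mul_of_nonneg_right h2 (Real.exp_pos _).le
    _ = Real.exp (-(δ ^ 2 * n / 4)) := by
        rw [← Real.exp_add]
        congr 1
        rw [hl]
        ring

/-! ### choice of few vertices -/

theorem pow_ineq (m : ℕ) (d t : ℝ) (hd : 0 ≤ d) (ht : 0 ≤ t) : (m + 1) * d * t ^ m ≤ (t + d) ^ (m + 1) := by
  induction m with
  | zero => simp; exact ht
  | succ m ih =>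
    have h1 : t ^ (m + 1) ≤ (t + d) ^ (m + 1) := pow_le_pow_left₀ ht (by linarith) _
    have h2 := mul_le_mul_of_nonneg_left ih ht
    have h3 := mul_le_mul_of_nonneg_left h1 hd
    push_cast
    calc ((m : ℝ) + 1 + 1) * d * t ^ (m + 1) = t * ((m + 1) * d * t ^ m) + d * t ^ (m + 1) := by ring
      _ ≤ t * (t + d) ^ (m + 1) + d * (t + d) ^ (m + 1) := add_le_add h2 h3
      _ = _ := by ring

open Classical in
theorem one_b {n H m : ℕ} {Y : Type} (Z : Finset (Fin n)) (hZ : Z.Nonempty) (y : Fin n → Y)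
    (E : Bool → Fin H → Y → Prop) : ∃ σ : Fin m → Fin n, (∀ k, σ k ∈ Z) ∧
      ∑ j ∈ Z, ∑ a, (((univ.filter (fun x : Fin H => (∀ k, ¬ E a x (y (σ k))) ∧ E a x (y j))).card : ℕ) : ℝ) ≤
        2 * H * n / (m + 1) := by
  set P : Finset (Fin m → Fin n) := Fintype.piFinset (fun _ => Z) with hP
  have hPc : P.card = Z.card ^ m := by rw [hP, Fintype.card_piFinset_const]
  have hPne : P.Nonempty := by
    rw [← Finset.card_pos, hPc]
    exact pow_pos (Finset.card_pos.2 hZ) _
  have key : ∑ σ ∈ P, ∑ j ∈ Z, ∑ a, (((univ.filter (fun x : Fin H => (∀ k, ¬ E a x (y (σ k))) ∧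
      E a x (y j))).card : ℕ) : ℝ) ≤ ∑ σ ∈ P, 2 * (H : ℝ) * n / (m + 1) := by
    have e1 : ∑ σ ∈ P, ∑ j ∈ Z, ∑ a, (((univ.filter (fun x : Fin H => (∀ k, ¬ E a x (y (σ k))) ∧
        E a x (y j))).card : ℕ) : ℝ) = ∑ a : Bool, ∑ x : Fin H,
          ((Z.filter (fun j => E a x (y j))).card : ℝ) * ((P.filter (fun σ => ∀ k, ¬ E a x (y (σ k)))).card : ℝ) := by
      calc ∑ σ ∈ P, ∑ j ∈ Z, ∑ a, (((univ.filter (fun x : Fin H => (∀ k, ¬ E a x (y (σ k))) ∧
          E a x (y j))).card : ℕ) : ℝ) = ∑ σ ∈ P, ∑ j ∈ Z, ∑ a : Bool, ∑ x : Fin H,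
            (if E a x (y j) then (1 : ℝ) else 0) * (if ∀ k, ¬ E a x (y (σ k)) then 1 else 0) := by
            refine Finset.sum_congr rfl fun σ _ => Finset.sum_congr rfl fun j _ =>
              Finset.sum_congr rfl fun a _ => ?_
            rw [Finset.card_filter]
            push_cast
            refine Finset.sum_congr rfl fun x _ => ?_
            by_cases h1 : E a x (y j) <;> by_cases h2 : ∀ k, ¬ E a x (y (σ k)) <;> simp [h1, h2]
        _ = ∑ a : Bool, ∑ x : Fin H, ∑ σ ∈ P, ∑ j ∈ Z,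
            (if E a x (y j) then (1 : ℝ) else 0) * (if ∀ k, ¬ E a x (y (σ k)) then 1 else 0) := by
            have s1 : ∀ g : (Fin m → Fin n) → Fin n → Bool → Fin H → ℝ,
                ∑ σ ∈ P, ∑ j ∈ Z, ∑ a : Bool, ∑ x : Fin H, g σ j a x =
                ∑ a : Bool, ∑ x : Fin H, ∑ σ ∈ P, ∑ j ∈ Z, g σ j a x := by
              intro g
              calc ∑ σ ∈ P, ∑ j ∈ Z, ∑ a : Bool, ∑ x : Fin H, g σ j a x
                  = ∑ σ ∈ P, ∑ a : Bool, ∑ j ∈ Z, ∑ x : Fin H, g σ j a x :=
                    Finset.sum_congr rfl fun σ _ => Finset.sum_comm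
                _ = ∑ a : Bool, ∑ σ ∈ P, ∑ j ∈ Z, ∑ x : Fin H, g σ j a x := Finset.sum_comm
                _ = ∑ a : Bool, ∑ σ ∈ P, ∑ x : Fin H, ∑ j ∈ Z, g σ j a x :=
                    Finset.sum_congr rfl fun a _ => Finset.sum_congr rfl fun σ _ => Finset.sum_comm
                _ = _ := Finset.sum_congr rfl fun a _ => Finset.sum_comm
            exact s1 _
        _ = _ := by
            refine Finset.sum_congr rfl fun a _ => Finset.sum_congr rfl fun x _ => ?_
            rw [Finset.card_filter, Finset.card_filter, Finset.sum_comm]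
            push_cast
            rw [Finset.sum_mul_sum]
    rw [e1]
    have e2 : ∀ (a : Bool) (x : Fin H), ((Z.filter (fun j => E a x (y j))).card : ℝ) *
        ((P.filter (fun σ => ∀ k, ¬ E a x (y (σ k)))).card : ℝ) ≤ (n : ℝ) / (m + 1) * P.card := by
      intro a x
      set d : ℕ := (Z.filter (fun j => E a x (y j))).card with hd
      set t : ℕ := (Z.filter (fun j => ¬ E a x (y j))).card with ht
      have h1 : d + t = Z.card := Finset.card_filter_add_card_filter_not _
      have h2 : (P.filter (fun σ => ∀ k, ¬ E a x (y (σ k)))).card = t ^ m := by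
        have : P.filter (fun σ => ∀ k, ¬ E a x (y (σ k))) =
            Fintype.piFinset (fun _ : Fin m => Z.filter (fun j => ¬ E a x (y j))) := by
          ext σ
          simp only [hP, mem_filter, Fintype.mem_piFinset]
          constructor
          · rintro ⟨h3, h4⟩ k
            exact ⟨h3 k, h4 k⟩
          · intro h3
            exact ⟨fun k => (h3 k).1, fun k => (h3 k).2⟩
        rw [this, Fintype.card_piFinset_const]
      rw [h2, hPc]
      push_cast
      have h3 := pow_ineq m (d : ℝ) t (Nat.cast_nonneg _) (Nat.cast_nonneg _)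
      have h4 : (t : ℝ) + d = Z.card := by
        rw [add_comm]
        exact_mod_cast h1
      rw [h4] at h3
      have h5 : (Z.card : ℝ) ≤ n := by
        have := Finset.card_le_univ Z
        rw [Fintype.card_fin] at this
        exact_mod_cast this
      have hm : (0 : ℝ) < m + 1 := by positivity
      rw [div_mul_eq_mul_div, le_div_iff₀ hm]
      calc (d : ℝ) * t ^ m * (m + 1) = (m + 1) * d * t ^ m := by ring
        _ ≤ (Z.card : ℝ) ^ (m + 1) := h3
        _ = Z.card * Z.card ^ m := by ring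
        _ ≤ n * Z.card ^ m := mul_le_mul_of_nonneg_right h5 (by positivity)
    calc ∑ a : Bool, ∑ x : Fin H, ((Z.filter (fun j => E a x (y j))).card : ℝ) *
          ((P.filter (fun σ => ∀ k, ¬ E a x (y (σ k)))).card : ℝ)
        ≤ ∑ _a : Bool, ∑ _x : Fin H, (n : ℝ) / (m + 1) * P.card :=
          Finset.sum_le_sum fun a _ => Finset.sum_le_sum fun x _ => e2 a x
      _ = ∑ σ ∈ P, 2 * (H : ℝ) * n / (m + 1) := by
          simp only [Finset.sum_const, Finset.card_univ, Fintype.card_fin, Fintype.card_bool, nsmul_eq_mul]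
          push_cast
          ring
  obtain ⟨σ, hσ, h⟩ := Finset.exists_le_of_sum_le hPne key
  exact ⟨σ, Fintype.mem_piFinset.1 hσ, h⟩

end Pool.Agent.N679.SD
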