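import Mathlib
import Pool.Agent.N679.SD.Smp

set_option autoImplicit false

/-!
# Project SD: cliques of a random sample of a bipartite kernel, conclusion
-/

namespace Pool.Agent.N679.SD

open Finset Filter

/-- large cliques of a sample -/
def Clq {n H : ℕ} {Y : Type} (θ : ℝ) (E : Bool → Bool → Fin H → Y → Prop) (ω : Fin n → Fin H × Y) : Prop :=
  ∃ X Z : Bool → Finset (Fin n), Disjoint (X false) (X true) ∧ Disjoint (Z false) (Z true) ∧
    θ * n ≤ ((X false).card + (X true).card + (Z false).card + (Z true).card : ℕ) ∧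
    ∀ a b, ∀ i ∈ X a, ∀ j ∈ Z b, ¬ E a b (ω i).1 (ω j).2

open Classical in
/-- the vertices without edges to the chosen ones -/
noncomputable def AA {n H m : ℕ} {Y : Type} (E : Bool → Bool → Fin H → Y → Prop) (β : Finset Bool)
    (σ : Bool → Fin m → Fin n) (y : Fin n → Y) (a : Bool) : Finset (Fin H) :=
  univ.filter (fun x => ∀ b ∈ β, ∀ k, ¬ E a b x (y (σ b k)))

open Classical in
/-- the vertices with few edges to them -/
noncomputable def BB {n H m : ℕ} {Y : Type} [Fintype Y] (τ : ℝ) (E : Bool → Bool → Fin H → Y → Prop)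
    (β : Finset Bool) (σ : Bool → Fin m → Fin n) (y : Fin n → Y) (b : Bool) : Finset Y :=
  univ.filter (fun z => b ∈ β ∧ ∀ a, (((AA E β σ y a).filter (fun x => E a b x z)).card : ℝ) ≤ τ * H)

theorem AA_congr {n H m : ℕ} {Y : Type} (E : Bool → Bool → Fin H → Y → Prop) (β : Finset Bool)
    (σ : Bool → Fin m → Fin n) (y y' : Fin n → Y) (h : ∀ b k, y (σ b k) = y' (σ b k)) (a : Bool) :
    AA E β σ y a = AA E β σ y' a := by
  unfold AA
  congr 1
  ext x
  simp only [h]

theorem BB_congr {n H m : ℕ} {Y : Type} [Fintype Y] (τ : ℝ) (E : Bool → Bool → Fin H → Y → Prop)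
    (β : Finset Bool) (σ : Bool → Fin m → Fin n) (y y' : Fin n → Y) (h : ∀ b k, y (σ b k) = y' (σ b k)) (b : Bool) :
    BB τ E β σ y b = BB τ E β σ y' b := by
  unfold BB
  simp only [AA_congr E β σ y y' h]

open Classical in
/-- the test function -/
noncomputable def ff {n H m : ℕ} {Y : Type} [Fintype Y] (τ : ℝ) (E : Bool → Bool → Fin H → Y → Prop)
    (p : Finset Bool × (Bool → Fin m → Fin n)) (ω : Fin n → Fin H × Y) (z : Fin H × Y) : ℝ :=
  ((if z.1 ∈ AA E p.1 p.2 (fun i => (ω i).2) false ∪ AA E p.1 p.2 (fun i => (ω i).2) true then 1 else 0) +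
    (if z.2 ∈ BB τ E p.1 p.2 (fun i => (ω i).2) false ∪ BB τ E p.1 p.2 (fun i => (ω i).2) true then 1 else 0)) / 2

open Classical in
theorem step {n H m : ℕ} {Y : Type} [Fintype Y] {τ ε θ : ℝ} (hτ : 0 < τ) (hε : 0 < ε)
    (hH : 1 ≤ H) (hn : 1 ≤ n) (hm : 4 / (τ * (m + 1)) ≤ ε / 8) (hnm : 2 * m ≤ 3 * ε / 16 * n)
    (v : Y → ℝ) (hv : ∀ y, 0 ≤ v y) (hv1 : ∑ y, v y = 1) (E : Bool → Bool → Fin H → Y → Prop)
    (hE : ∀ (A : Bool → Finset (Fin H)) (B : Bool → Finset Y),
      (∀ a b, ∑ x ∈ A a, ∑ y ∈ B b, (if E a b x y then v y else 0) ≤ τ * H) →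
      ((A false ∪ A true).card : ℝ) / H + ∑ y ∈ B false ∪ B true, v y ≤ θ)
    (ω : Fin n → Fin H × Y) (hc : Clq (θ + ε) E ω) :
    ∃ p : Finset Bool × (Bool → Fin m → Fin n), ε / 4 * n ≤
      ∑ i ∈ univ \ univ.image (fun bk : Bool × Fin m => p.2 bk.1 bk.2),
        (ff τ E p ω (ω i) - ∑ z : Fin H × Y, v z.2 / H * ff τ E p ω z) := by
  obtain ⟨X, Z, hX, hZ, hcard, hne⟩ := hc
  set y : Fin n → Y := fun i => (ω i).2 with hy
  set β : Finset Bool := univ.filter (fun b => (Z b).Nonempty) with hβ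
  have hHr : (0 : ℝ) < H := by exact_mod_cast hH
  have hnr : (0 : ℝ) < n := by exact_mod_cast hn
  -- the choice of the vertices
  have hσ : ∀ b : Bool, ∃ σ : Fin m → Fin n, (Z b).Nonempty → (∀ k, σ k ∈ Z b) ∧
      ∑ j ∈ Z b, ∑ a, (((univ.filter (fun x : Fin H => (∀ k, ¬ E a b x (y (σ k))) ∧ E a b x (y j))).card : ℕ) : ℝ) ≤
        2 * H * n / (m + 1) := by
    intro b
    by_cases hb : (Z b).Nonempty
    · obtain ⟨σ, h1, h2⟩ := one_b (m := m) (Z b) hb y (fun a => E a b)
      exact ⟨σ, fun _ => ⟨h1, h2⟩⟩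
    · exact ⟨fun _ => ⟨0, hn⟩, fun h => absurd h hb⟩
  choose σ hσ using hσ
  set A : Bool → Finset (Fin H) := AA E β σ y with hA
  set B : Bool → Finset Y := BB τ E β σ y with hB
  have hmean : ∀ p : Finset Bool × (Bool → Fin m → Fin n), p = (β, σ) →
      ∑ z : Fin H × Y, v z.2 / H * ff τ E p ω z =
      (((A false ∪ A true).card : ℝ) / H + ∑ z ∈ B false ∪ B true, v z) / 2 := by
    intro p hp
    subst hp
    rw [Fintype.sum_prod_type]
    have e1 : ∀ (x : Fin H) (z : Y), v z / H * ff τ E (β, σ) ω (x, z) =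
        (v z * (if x ∈ A false ∪ A true then 1 / (H : ℝ) else 0) +
          (1 / (H : ℝ)) * (if z ∈ B false ∪ B true then v z else 0)) / 2 := by
      intro x z
      unfold ff
      by_cases h1 : x ∈ A false ∪ A true <;> by_cases h2 : z ∈ B false ∪ B true <;>
        simp only [hA, hB, hy] at h1 h2 <;> simp only [hA, hB, hy, h1, h2, if_true, if_false] <;> ring
    simp only [e1]
    have e2 : ∀ x : Fin H, ∑ z : Y, (v z * (if x ∈ A false ∪ A true then 1 / (H : ℝ) else 0) +
          (1 / (H : ℝ)) * (if z ∈ B false ∪ B true then v z else 0)) / 2 =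
        ((if x ∈ A false ∪ A true then 1 / (H : ℝ) else 0) +
          (1 / (H : ℝ)) * ∑ z ∈ B false ∪ B true, v z) / 2 := by
      intro x
      rw [← Finset.sum_div, Finset.sum_add_distrib, ← Finset.sum_mul, hv1, ← Finset.mul_sum, one_mul,
        Finset.sum_ite_mem, Finset.univ_inter]
    simp only [e2]
    rw [← Finset.sum_div, Finset.sum_add_distrib, Finset.sum_ite_mem, Finset.univ_inter, Finset.sum_const,
      Finset.sum_const, Finset.card_univ, Fintype.card_fin, nsmul_eq_mul, nsmul_eq_mul]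
    field_simp
  have hR := hE A B (by
    intro a b
    rw [Finset.sum_comm]
    have e1 : ∀ z ∈ B b, ∑ x ∈ A a, (if E a b x z then v z else 0) ≤ v z * (τ * H) := by
      intro z hz
      rw [← Finset.sum_filter, Finset.sum_const, nsmul_eq_mul, mul_comm]
      apply mul_le_mul_of_nonneg_left _ (hv z)
      exact (mem_filter.1 hz).2.2 a
    refine (Finset.sum_le_sum e1).trans ?_
    rw [← Finset.sum_mul]
    have e2 : ∑ z ∈ B b, v z ≤ 1 := by
      rw [← hv1]
      exact Finset.sum_le_sum_of_subset_of_nonneg (Finset.subset_univ _) (fun z _ _ => hv z)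
    have e3 : 0 ≤ τ * (H : ℝ) := by positivity
    calc (∑ z ∈ B b, v z) * (τ * H) ≤ 1 * (τ * H) := mul_le_mul_of_nonneg_right e2 e3
      _ = τ * H := one_mul _)
  refine ⟨(β, σ), ?_⟩
  rw [Finset.sum_sub_distrib, hmean _ rfl]
  set W : Finset (Fin n) := univ.image (fun bk : Bool × Fin m => σ bk.1 bk.2) with hW
  set M : ℝ := (((A false ∪ A true).card : ℝ) / H + ∑ z ∈ B false ∪ B true, v z) / 2 with hM
  have hM0 : 0 ≤ M := by
    have : 0 ≤ ∑ z ∈ B false ∪ B true, v z := Finset.sum_nonneg fun z _ => hv z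
    positivity
  have hM1 : M ≤ θ / 2 := by rw [hM]; linarith
  have hWc : (W.card : ℝ) ≤ 2 * m := by
    have h1 : W.card ≤ Fintype.card (Bool × Fin m) := Finset.card_image_le.trans (by simp)
    rw [Fintype.card_prod, Fintype.card_bool, Fintype.card_fin] at h1
    exact_mod_cast h1
  -- the mean
  have h1 : ∑ i ∈ univ \ W, M ≤ n * (θ / 2) := by
    rw [Finset.sum_const, nsmul_eq_mul]
    have h2 : ((univ \ W).card : ℝ) ≤ n := by
      have := Finset.card_le_univ (univ \ W)
      rw [Fintype.card_fin] at this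
      exact_mod_cast this
    exact mul_le_mul h2 hM1 hM0 hnr.le
  -- the sample
  have hff1 : ∀ i, ff τ E (β, σ) ω (ω i) ≤ 1 := by
    intro i
    unfold ff
    split_ifs <;> norm_num
  have h2 : ∑ i, ff τ E (β, σ) ω (ω i) ≤ ∑ i ∈ univ \ W, ff τ E (β, σ) ω (ω i) + 2 * m := by
    rw [← Finset.sum_sdiff (Finset.subset_univ W)]
    apply add_le_add le_rfl
    calc ∑ i ∈ W, ff τ E (β, σ) ω (ω i) ≤ ∑ _i ∈ W, (1 : ℝ) := Finset.sum_le_sum fun i _ => hff1 i
      _ = W.card := by rw [Finset.sum_const, nsmul_eq_mul, mul_one]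
      _ ≤ 2 * m := hWc
  have h3 : ∑ i, ff τ E (β, σ) ω (ω i) =
      (((univ.filter (fun i => (ω i).1 ∈ A false ∪ A true)).card : ℝ) +
        ((univ.filter (fun i => (ω i).2 ∈ B false ∪ B true)).card : ℝ)) / 2 := by
    unfold ff
    rw [← Finset.sum_div, Finset.sum_add_distrib, Finset.card_filter, Finset.card_filter]
    push_cast
    rfl
  -- the first class
  have h4 : (X false).card + (X true).card ≤ (univ.filter (fun i => (ω i).1 ∈ A false ∪ A true)).card := by
    rw [← Finset.card_union_of_disjoint hX]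
    apply Finset.card_le_card
    have hXA : ∀ a, ∀ i ∈ X a, (ω i).1 ∈ A a := by
      intro a i hi
      rw [hA]
      refine mem_filter.2 ⟨mem_univ _, fun b hb k => ?_⟩
      exact hne a b i hi _ ((hσ b (mem_filter.1 hb).2).1 k)
    intro i hi
    rw [mem_filter, mem_union]
    refine ⟨mem_univ _, ?_⟩
    rcases mem_union.1 hi with h | h
    · exact Or.inl (hXA _ _ h)
    · exact Or.inr (hXA _ _ h)
  -- the second class
  have h5 : ∀ b, (((Z b).filter (fun j => y j ∉ B b)).card : ℝ) ≤ ε / 16 * n := by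
    intro b
    by_cases hb : (Z b).Nonempty
    · obtain ⟨h6, h7⟩ := hσ b hb
      have hbβ : b ∈ β := mem_filter.2 ⟨mem_univ _, hb⟩
      have h8 : (((Z b).filter (fun j => y j ∉ B b)).card : ℝ) * (τ * H) ≤ 2 * H * n / (m + 1) := by
        refine le_trans ?_ h7
        calc (((Z b).filter (fun j => y j ∉ B b)).card : ℝ) * (τ * H)
            = ∑ j ∈ (Z b).filter (fun j => y j ∉ B b), τ * H := by rw [Finset.sum_const, nsmul_eq_mul]
          _ ≤ ∑ j ∈ (Z b).filter (fun j => y j ∉ B b), ∑ a, (((univ.filter (fun x : Fin H =>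
              (∀ k, ¬ E a b x (y (σ b k))) ∧ E a b x (y j))).card : ℕ) : ℝ) := by
              refine Finset.sum_le_sum fun j hj => ?_
              have h9 := (mem_filter.1 hj).2
              rw [hB] at h9
              unfold BB at h9
              rw [mem_filter] at h9
              push Not at h9
              obtain ⟨a, ha⟩ := h9 (mem_univ _) hbβ
              refine ha.le.trans ?_
              have h10 : (((AA E β σ y a).filter (fun x => E a b x (y j))).card : ℝ) ≤
                  (((univ.filter (fun x : Fin H => (∀ k, ¬ E a b x (y (σ b k))) ∧ E a b x (y j))).card : ℕ) : ℝ) := by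
                rw [Nat.cast_le]
                apply Finset.card_le_card
                intro x hx
                obtain ⟨h11, h12⟩ := mem_filter.1 hx
                exact mem_filter.2 ⟨mem_univ _, fun k => (mem_filter.1 h11).2 b hbβ k, h12⟩
              refine h10.trans ?_
              exact Finset.single_le_sum (f := fun a => (((univ.filter (fun x : Fin H =>
                (∀ k, ¬ E a b x (y (σ b k))) ∧ E a b x (y j))).card : ℕ) : ℝ))
                (fun _ _ => Nat.cast_nonneg _) (mem_univ a)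
          _ ≤ _ := Finset.sum_le_sum_of_subset_of_nonneg (filter_subset _ _)
              (fun _ _ _ => Finset.sum_nonneg fun _ _ => Nat.cast_nonneg _)
      have hm1 : (0 : ℝ) < m + 1 := by positivity
      have h9 : (((Z b).filter (fun j => y j ∉ B b)).card : ℝ) ≤ 2 * n / (τ * (m + 1)) := by
        rw [le_div_iff₀ (by positivity)]
        rw [le_div_iff₀ hm1] at h8
        have : (((Z b).filter (fun j => y j ∉ B b)).card : ℝ) * (τ * (m + 1)) * H ≤ 2 * n * H := by
          calc _ = (((Z b).filter (fun j => y j ∉ B b)).card : ℝ) * (τ * H) * (m + 1) := by ring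
            _ ≤ 2 * H * n := h8
            _ = _ := by ring
        exact le_of_mul_le_mul_right this hHr
      refine h9.trans ?_
      have h10 : 2 * (n : ℝ) / (τ * (m + 1)) = (4 / (τ * (m + 1))) * (n / 2) := by ring
      rw [h10]
      have := mul_le_mul_of_nonneg_right hm (by positivity : (0 : ℝ) ≤ n / 2)
      linarith
    · rw [Finset.not_nonempty_iff_eq_empty] at hb
      rw [hb, Finset.filter_empty, Finset.card_empty, Nat.cast_zero]
      positivity
  have h6 : ((Z false).card : ℝ) + (Z true).card ≤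
      ((univ.filter (fun i => (ω i).2 ∈ B false ∪ B true)).card : ℝ) + ε / 8 * n := by
    have h7 : (Z false ∪ Z true) ⊆ (univ.filter (fun i => (ω i).2 ∈ B false ∪ B true)) ∪
        ((Z false).filter (fun j => y j ∉ B false) ∪ (Z true).filter (fun j => y j ∉ B true)) := by
      intro j hj
      rw [mem_union, mem_union, mem_filter, mem_union, mem_filter, mem_filter]
      rcases mem_union.1 hj with h | h
      · by_cases h8 : y j ∈ B false
        · exact Or.inl ⟨mem_univ _, Or.inl h8⟩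
        · exact Or.inr (Or.inl ⟨h, h8⟩)
      · by_cases h8 : y j ∈ B true
        · exact Or.inl ⟨mem_univ _, Or.inr h8⟩
        · exact Or.inr (Or.inr ⟨h, h8⟩)
    have h8 := (Finset.card_le_card h7).trans ((card_union_le _ _).trans (add_le_add le_rfl (card_union_le _ _)))
    rw [Finset.card_union_of_disjoint hZ] at h8
    have h9 : (((Z false).card + (Z true).card : ℕ) : ℝ) ≤
        (((univ.filter (fun i => (ω i).2 ∈ B false ∪ B true)).card +
        (((Z false).filter (fun j => y j ∉ B false)).card + ((Z true).filter (fun j => y j ∉ B true)).card) : ℕ) : ℝ) := by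
      exact_mod_cast h8
    push_cast at h9
    have := h5 false
    have := h5 true
    linarith
  have h7 : (((X false).card : ℝ) + (X true).card) ≤ ((univ.filter (fun i => (ω i).1 ∈ A false ∪ A true)).card : ℝ) := by
    exact_mod_cast h4
  push_cast at hcard
  linarith

theorem eventually_small (k : ℕ) (b : ℝ) (hb : 0 < b) : ∀ᶠ n : ℕ in atTop,
    4 * (n : ℝ) ^ k * Real.exp (-(b * n)) ≤ 1 / 2 := by
  have h1 : Tendsto (fun x : ℝ => x ^ k * Real.exp (-x)) atTop (nhds 0) :=
    Real.tendsto_pow_mul_exp_neg_atTop_nhds_zero k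
  have h2 : Tendsto (fun n : ℕ => b * (n : ℝ)) atTop atTop :=
    Tendsto.const_mul_atTop hb tendsto_natCast_atTop_atTop
  have h3 := (h1.comp h2).const_mul (4 / b ^ k)
  rw [mul_zero] at h3
  have h4 := h3.eventually (gt_mem_nhds (by norm_num : (0 : ℝ) < 1 / 2))
  filter_upwards [h4] with n hn
  refine le_of_eq_of_le ?_ hn.le
  simp only [Function.comp]
  rw [mul_pow]
  field_simp

open Classical in
/-- a random sample of a kernel without near cliques has no large cliques with probability at least one half -/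
theorem smp (τ ε θ : ℝ) (hτ : 0 < τ) (hε : 0 < ε) (hε1 : ε ≤ 4) : ∃ n₀ : ℕ, ∀ n : ℕ, n₀ ≤ n →
    ∀ (H : ℕ), 1 ≤ H → ∀ (Y : Type) [Fintype Y] (v : Y → ℝ), (∀ y, 0 ≤ v y) → ∑ y, v y = 1 →
    ∀ E : Bool → Bool → Fin H → Y → Prop,
    (∀ (A : Bool → Finset (Fin H)) (B : Bool → Finset Y),
      (∀ a b, ∑ x ∈ A a, ∑ y ∈ B b, (if E a b x y then v y else 0) ≤ τ * H) →
      ((A false ∪ A true).card : ℝ) / H + ∑ y ∈ B false ∪ B true, v y ≤ θ) →
    ∑ ω : Fin n → Fin H × Y, wt (fun z : Fin H × Y => v z.2 / H) ω *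
      (if Clq (θ + ε) E ω then 1 else 0) ≤ 1 / 2 := by
  obtain ⟨m, hm⟩ := exists_nat_ge (32 / (τ * ε))
  have hm' : 4 / (τ * (m + 1)) ≤ ε / 8 := by
    rw [div_le_div_iff₀ (by positivity) (by norm_num)]
    rw [div_le_iff₀ (by positivity)] at hm
    nlinarith [mul_pos hτ hε]
  obtain ⟨n₁, hn₁⟩ := eventually_atTop.1 (eventually_small (2 * m) ((ε / 4) ^ 2 / 4) (by positivity))
  obtain ⟨n₂, hn₂⟩ := exists_nat_ge (2 * m / (3 * ε / 16))
  refine ⟨max 1 (max n₁ n₂), fun n hn H hH Y _ v hv hv1 E hE => ?_⟩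
  have hn1 : 1 ≤ n := (le_max_left _ _).trans hn
  have hnn₁ : n₁ ≤ n := ((le_max_left _ _).trans (le_max_right _ _)).trans hn
  have hnn₂ : n₂ ≤ n := ((le_max_right _ _).trans (le_max_right _ _)).trans hn
  have hnm : 2 * (m : ℝ) ≤ 3 * ε / 16 * n := by
    have h1 : 2 * (m : ℝ) / (3 * ε / 16) ≤ n := hn₂.trans (by exact_mod_cast hnn₂)
    rw [div_le_iff₀ (by positivity)] at h1
    linarith
  have hHr : (0 : ℝ) < H := by exact_mod_cast hH
  set w : Fin H × Y → ℝ := fun z => v z.2 / H with hw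
  have hw0 : ∀ z, 0 ≤ w z := fun z => div_nonneg (hv _) hHr.le
  have hw1 : ∑ z, w z = 1 := by
    rw [Fintype.sum_prod_type]
    have e1 : ∀ x : Fin H, ∑ y : Y, w (x, y) = 1 / H := by
      intro x
      rw [hw]
      simp only
      rw [← Finset.sum_div, hv1]
    simp only [e1]
    rw [Finset.sum_const, Finset.card_univ, Fintype.card_fin, nsmul_eq_mul]
    field_simp
  set T : Type := Finset Bool × (Bool → Fin m → Fin n) with hT
  set W : T → Finset (Fin n) := fun p => univ.image (fun bk : Bool × Fin m => p.2 bk.1 bk.2) with hW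
  have hbound : ∀ ω : Fin n → Fin H × Y, wt w ω * (if Clq (θ + ε) E ω then (1 : ℝ) else 0) ≤
      ∑ p : T, wt w ω * (if ε / 4 * n ≤ ∑ i ∈ univ \ W p,
        (ff τ E p ω (ω i) - ∑ z : Fin H × Y, w z * ff τ E p ω z) then 1 else 0) := by
    intro ω
    split_ifs with h
    · obtain ⟨p, hp⟩ := step hτ hε hH hn1 hm' hnm v hv hv1 E hE ω h
      refine le_trans (le_of_eq ?_) (Finset.single_le_sum (f := fun p : T => wt w ω * (if ε / 4 * n ≤
        ∑ i ∈ univ \ W p, (ff τ E p ω (ω i) - ∑ z : Fin H × Y, w z * ff τ E p ω z) then (1 : ℝ) else 0))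
        (fun p _ => mul_nonneg (wt_nonneg hw0 ω) (by split_ifs <;> norm_num)) (mem_univ p))
      rw [if_pos hp]
    · rw [mul_zero]
      exact Finset.sum_nonneg fun p _ => mul_nonneg (wt_nonneg hw0 ω) (by split_ifs <;> norm_num)
  refine (Finset.sum_le_sum fun ω _ => hbound ω).trans ?_
  rw [Finset.sum_comm]
  have htail : ∀ p : T, ∑ ω : Fin n → Fin H × Y, wt w ω * (if ε / 4 * n ≤ ∑ i ∈ univ \ W p,
        (ff τ E p ω (ω i) - ∑ z : Fin H × Y, w z * ff τ E p ω z) then (1 : ℝ) else 0) ≤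
      Real.exp (-((ε / 4) ^ 2 * n / 4)) := by
    intro p
    refine tail hw0 hw1 (W p) (fun ω _ z => ff τ E p ω z) (fun ω i z => ?_) (fun ω ω' h => ?_)
      (by positivity) (by linarith)
    · unfold ff
      split_ifs <;> norm_num
    · funext i z
      have h1 : ∀ b k, (fun i => (ω i).2) (p.2 b k) = (fun i => (ω' i).2) (p.2 b k) := by
        intro b k
        simp only
        rw [h _ (mem_image.2 ⟨(b, k), mem_univ _, rfl⟩)]
      unfold ff
      rw [AA_congr E p.1 p.2 (fun i => (ω i).2) (fun i => (ω' i).2) h1 false, AA_congr E p.1 p.2 (fun i => (ω i).2) (fun i => (ω' i).2) h1 true,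
        BB_congr τ E p.1 p.2 (fun i => (ω i).2) (fun i => (ω' i).2) h1 false, BB_congr τ E p.1 p.2 (fun i => (ω i).2) (fun i => (ω' i).2) h1 true]
  refine (Finset.sum_le_sum fun p _ => htail p).trans ?_
  rw [Finset.sum_const, Finset.card_univ, nsmul_eq_mul]
  have hcard : (Fintype.card T : ℝ) = 4 * (n : ℝ) ^ (2 * m) := by
    have h1 : Fintype.card (Finset Bool × (Bool → Fin m → Fin n)) = 2 ^ 2 * (n ^ m) ^ 2 := by
      rw [Fintype.card_prod, Fintype.card_finset, Fintype.card_bool, Fintype.card_fun, Fintype.card_fun,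
        Fintype.card_fin, Fintype.card_fin, Fintype.card_bool]
    have h2 : (Fintype.card T : ℝ) = ((2 ^ 2 * (n ^ m) ^ 2 : ℕ) : ℝ) := congrArg Nat.cast h1
    rw [h2]
    push_cast
    ring
  rw [hcard]
  have h1 := hn₁ n hnn₁
  have h2 : (ε / 4) ^ 2 * (n : ℝ) / 4 = (ε / 4) ^ 2 / 4 * n := by ring
  rw [h2]
  exact h1

end Pool.Agent.N679.SD
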