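import Pool.Agent.N679.SD.Stm
import Pool.Agent.N679.SD.Smp2
import Pool.Agent.N679.SD.Gre
import Pool.Agent.W681.TF.Cls
import Pool.Agent.H362R2.CM.Box

set_option autoImplicit false
open Filter Topology Finset
open scoped BoundedContinuousFunction

/-!
# Project SD: classes of integers with many bad pairs
-/

namespace Pool.Agent.N679.SD

open Pool.Agent.W634.BQ Pool.Agent.W505.BQ Pool.Agent.W27.FB Pool.Agent.W142.TF

theorem m_ind_nonneg {m : (ℤ →ᵇ ℝ) →ₗ[ℝ] ℝ} (hm : IsMean m) (S : Set ℤ) : 0 ≤ m (ind S) :=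
  hm.pos _ fun n => (ind_01 S n).1

/-- finite additivity -/
theorem m_fiber {m : (ℤ →ᵇ ℝ) →ₗ[ℝ] ℝ} {Y : Type} [DecidableEq Y] (g : ℤ → Y) (R : ℤ → Prop)
    (B : Finset Y) : ∑ π ∈ B, m (ind {y | R y ∧ g y = π}) = m (ind {y | R y ∧ g y ∈ B}) := by
  rw [← map_sum]
  congr 1
  ext y
  have h0 : ∀ (s : Finset Y) (F : Y → (ℤ →ᵇ ℝ)), (∑ k ∈ s, F k) y = ∑ k ∈ s, F k y := by
    intro s F
    induction s using Finset.induction_on with
    | empty => simp
    | insert i s hi ih => rw [sum_insert hi, sum_insert hi, BoundedContinuousFunction.coe_add,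
        Pi.add_apply, ih]
  rw [h0]
  by_cases hR : R y
  · by_cases hB : g y ∈ B
    · rw [ind_mem (show y ∈ {y | R y ∧ g y ∈ B} from ⟨hR, hB⟩), Finset.sum_eq_single_of_mem (g y) hB]
      · exact ind_mem (show y ∈ {z | R z ∧ g z = g y} from ⟨hR, rfl⟩)
      · intro π _ hne
        exact ind_notMem (show y ∉ {z | R z ∧ g z = π} from fun h => hne h.2.symm)
    · rw [ind_notMem (show y ∉ {y | R y ∧ g y ∈ B} from fun h => hB h.2)]
      refine Finset.sum_eq_zero fun π hπ => ?_
      exact ind_notMem (show y ∉ {z | R z ∧ g z = π} from fun h => hB (by rw [h.2]; exact hπ))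
  · rw [ind_notMem (show y ∉ {y | R y ∧ g y ∈ B} from fun h => hR h.1)]
    refine Finset.sum_eq_zero fun π _ => ?_
    exact ind_notMem (show y ∉ {z | R z ∧ g z = π} from fun h => hR h.1)

/-- sets of positive measure are infinite -/
theorem infinite_of_pos {m : (ℤ →ᵇ ℝ) →ₗ[ℝ] ℝ} (hm : IsMean m) {S : Set ℤ} (h : 0 < m (ind S)) : S.Infinite := by
  intro hfin
  have h1 : Null S := by
    intro ε hε
    obtain ⟨L0, hL0⟩ := exists_nat_ge ((hfin.toFinset.card : ℝ) / ε)
    refine ⟨L0, fun L hL u => ?_⟩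
    have h2 : ({n : ℕ | n < L ∧ u + (n : ℤ) ∈ S}.ncard) ≤ hfin.toFinset.card := by
      rw [← Set.ncard_coe_finset]
      apply Set.ncard_le_ncard_of_injOn (fun n : ℕ => u + (n : ℤ))
      · intro n hn
        rw [Finset.mem_coe, Set.Finite.mem_toFinset]
        exact hn.2
      · intro a _ b _ hab
        have : (a : ℤ) = b := by simpa using hab
        exact_mod_cast this
    have h3 : (hfin.toFinset.card : ℝ) ≤ ε * L := by
      rw [div_le_iff₀ hε] at hL0
      have : (L0 : ℝ) ≤ L := by exact_mod_cast hL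
      nlinarith
    exact (by exact_mod_cast h2 : (({n : ℕ | n < L ∧ u + (n : ℤ) ∈ S}.ncard : ℕ) : ℝ) ≤
      (hfin.toFinset.card : ℝ)).trans h3
  rw [Pool.Agent.W505.FN.mean_null hm h1] at h
  exact lt_irrefl _ h

/-- a set which contains differences of large sets contains them with separated elements -/
theorem sep_of {V : Set ℤ} {q : ℕ} (H K : ℕ) (hV : ∃ L L' : Fin (2 * K * (2 * H + 1) + 1) → ℤ,
    Function.Injective L ∧ Function.Injective L' ∧ ∀ i j, (q : ℤ) * (L' j - L i) ∈ V) : ∃ f : Bool → Fin K → ℤ,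
    (∀ i j, (q : ℤ) * (f true j - f false i) ∈ V) ∧
    ∀ a i a' i', (a, i) ≠ (a', i') → (H : ℤ) < |f a i - f a' i'| := by
  classical
  set N : ℕ := 2 * K with hN
  obtain ⟨L, L', hL, hL', hLV⟩ := hV
  set F : ℕ → Finset ℤ := fun i => if i < K then univ.image L else univ.image L' with hF
  have hFc : ∀ i < N, N * (2 * H + 1) < (F i).card := by
    intro i _
    rw [hF]
    simp only
    split_ifs
    · rw [card_image_of_injective _ hL, card_univ, Fintype.card_fin]; omega
    · rw [card_image_of_injective _ hL', card_univ, Fintype.card_fin]; omega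
  obtain ⟨x, hx⟩ := sepseq H N F hFc N le_rfl
  set ix : Bool → Fin K → ℕ := fun a i => if a then K + i else i with hix
  have hixlt : ∀ a i, ix a i < N := by
    intro a i
    rw [hix]
    simp only
    split_ifs <;> omega
  have hixinj : ∀ a i a' i', (a, i) ≠ (a', i') → ix a i ≠ ix a' i' := by
    intro a i a' i' hne h
    apply hne
    rw [hix] at h
    cases a <;> cases a' <;> simp only [Bool.false_eq_true, if_false, if_true] at h
    · rw [Fin.ext h]
    · omega
    · omega
    · rw [Fin.ext (by omega : (i : ℕ) = i')]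
  refine ⟨fun a i => x (ix a i), fun i j => ?_, fun a i a' i' hne => ?_⟩
  · have h1 := (hx _ (hixlt false i)).1
    have h2 := (hx _ (hixlt true j)).1
    rw [hF, hix] at h1 h2
    simp only [Bool.false_eq_true, if_false, if_true] at h1 h2
    rw [if_pos i.2] at h1
    rw [if_neg (by omega)] at h2
    obtain ⟨u, _, hu⟩ := mem_image.1 h1
    obtain ⟨u', _, hu'⟩ := mem_image.1 h2
    have h3 := hLV u u'
    rw [hu, hu'] at h3
    exact h3
  · rcases lt_or_gt_of_ne (hixinj a i a' i' hne) with h | h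
    · rw [abs_sub_comm]
      exact (hx _ (hixlt a' i')).2 _ h
    · exact (hx _ (hixlt a i)).2 _ h

/-- index of the class -/
def ia (a : Bool) : Fin 4 := if a then 1 else 0
/-- index of the class -/
def ib (b : Bool) : Fin 4 := if b then 3 else 2

theorem ia_ne_ib (a b : Bool) : ia a ≠ ib b := by cases a <;> cases b <;> decide

open Classical in
theorem str (hKN : S_KN) (ε : ℝ) (hε : 0 < ε) (hε1 : ε ≤ 1 / 40) : ∃ n₀ : ℕ, ∀ n : ℕ, n₀ ≤ n →
    ∀ D : ℕ, 1 ≤ D → ∀ U : Set ℤ,
    (∀ L₀ : ℕ, ∃ L : ℕ, L₀ ≤ L ∧ ∃ u : ℤ, (4 / 9 + ε) * L ≤ ({n : ℕ | n < L ∧ u + (n : ℤ) ∈ U}.ncard : ℝ)) →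
    ∀ K : ℕ, 1 ≤ K → ∃ q K' : ℕ, 1 ≤ q ∧ 1 ≤ K' ∧ ∀ V : Set ℤ,
    (∃ L L' : Fin K' → ℤ, Function.Injective L ∧ Function.Injective L' ∧ ∀ i j, (q : ℤ) * (L' j - L i) ∈ V) →
    ∃ X Z : Bool → Fin n → Fin K → ℤ,
      (∀ a i k a' i' k', X a i k = X a' i' k' → a = a' ∧ i = i' ∧ k = k') ∧
      (∀ a i k a' i' k', Z a i k = Z a' i' k' → a = a' ∧ i = i' ∧ k = k') ∧
      (∀ a i k a' i' k', X a i k ≠ Z a' i' k') ∧
      (∀ i k k', X true i k' - X false i k ∈ V) ∧ (∀ i k k', Z true i k' - Z false i k ∈ V) ∧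
      ∀ S S' : Bool → Finset (Fin n), Disjoint (S false) (S true) → Disjoint (S' false) (S' true) →
        (10 / 9 : ℝ) * n ≤ ((S false).card + (S true).card + (S' false).card + (S' true).card : ℕ) →
        ∃ a b, ∃ i ∈ S a, ∃ j ∈ S' b, ∀ k k', Z b j k' - D * X a i k ∈ U := by
  obtain ⟨τ, hτ, hkn⟩ := hKN (4 / 9 + ε) (ε / 4) (by positivity) (by linarith) (by linarith)
  obtain ⟨n₀, hn₀⟩ := smp τ ε (10 / 9 - ε) hτ hε (by linarith)
  refine ⟨max 1 n₀, fun n hn D hD U hU K hK => ?_⟩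
  have hn1 : 1 ≤ n := (le_max_left _ _).trans hn
  obtain ⟨m, hm, q, r, H, hq, hH, hkn⟩ := hkn D hD U hU
  have hqr : (0 : ℝ) < q := by exact_mod_cast hq
  have hq0 : (0 : ℤ) < q := by exact_mod_cast hq
  have hHr : (0 : ℝ) < H := by exact_mod_cast hH
  -- the number of colours
  set Mt : Type := Bool × Bool × Fin n × Fin n → Bool with hMt
  obtain ⟨N, hN⟩ := Pool.Agent.H362R2.CM.box_lemma 4 (n * K) (1 / (2 * (Fintype.card Mt + 1))) (by positivity)
  set K₀ : ℕ := max N 1 with hK₀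
  have hK₀1 : 1 ≤ K₀ := le_max_right _ _
  refine ⟨q, 2 * K₀ * (2 * H + 1) + 1, hq, Nat.le_add_left _ _, fun V hV => ?_⟩
  obtain ⟨fam, hfV, hfs⟩ := sep_of (V := V) (q := q) H K₀ hV
  -- shifts and patterns
  set sft : (Fin 4 → Fin K₀) → Bool → Bool → ℤ := fun κ a b => fam b (κ (ib b)) - D * fam a (κ (ia a)) with hsft
  set J : Type := Fin H × (Fin 4 → Fin K₀) × Bool × Bool with hJ
  set pat : ℤ → (J → Bool) := fun y p =>
    decide (y - D * (q * (p.1 : ℕ)) + q * sft p.2.1 p.2.2.1 p.2.2.2 ∈ U) with hpat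
  set v : (J → Bool) → ℝ := fun π => q * m (ind {y : ℤ | (q : ℤ) ∣ y - r ∧ pat y = π}) with hv
  obtain ⟨E, hE⟩ : ∃ E : (Fin 4 → Fin K₀) → Bool → Bool → Fin H → (J → Bool) → Prop, E = fun κ a b i π =>
    π (i, κ, a, b) = true := ⟨_, rfl⟩
  have hv0 : ∀ π, 0 ≤ v π := fun π => mul_nonneg hqr.le (m_ind_nonneg hm _)
  have hvB : ∀ B : Finset (J → Bool), ∑ π ∈ B, v π = q * m (ind {y : ℤ | (q : ℤ) ∣ y - r ∧ pat y ∈ B}) := by
    intro B
    rw [hv]
    simp only
    rw [← Finset.mul_sum, m_fiber pat (fun y => (q : ℤ) ∣ y - r) B]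
  have hv1 : ∑ π, v π = 1 := by
    rw [hvB]
    have e1 : {y : ℤ | (q : ℤ) ∣ y - r ∧ pat y ∈ (univ : Finset (J → Bool))} = {a : ℤ | (q : ℤ) ∣ a - r} := by
      ext y
      simp
    rw [e1]
    have e2 := Pool.Agent.W681.TF.clss.2.1 m hm q r hq
    unfold cls at e2
    rw [e2]
    field_simp
  -- no near cliques
  have hR : ∀ κ, ∀ (_ : DecidableEq (J → Bool)) (A : Bool → Finset (Fin H)) (B : Bool → Finset (J → Bool)),
      (∀ a b, ∑ x ∈ A a, ∑ y ∈ B b, (if E κ a b x y then v y else 0) ≤ τ * H) →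
      ((A false ∪ A true).card : ℝ) / H + ∑ y ∈ B false ∪ B true, v y ≤ 10 / 9 - ε := by
    intro κ _ A B hAB
    have key : ∀ a b, ((A a).card : ℝ) / H ≤ ε / 4 ∨ ∑ y ∈ B b, v y ≤ ε / 4 ∨
        ((A a).card : ℝ) / H + ∑ y ∈ B b, v y ≤ 5 / 9 - 3 * ε / 4 := by
      intro a b
      have h1 := hkn ((A a).image (fun i : Fin H => (i : ℕ))) {y | pat y ∈ B b} (sft κ a b) (by
        intro i hi
        obtain ⟨j, _, rfl⟩ := mem_image.1 hi
        exact mem_range.2 j.2)
        (by
          refine le_of_eq_of_le ?_ (hAB a b)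
          rw [Finset.sum_image (fun i _ j _ h => Fin.ext h), Finset.mul_sum]
          refine Finset.sum_congr rfl fun x _ => ?_
          rw [← Finset.sum_filter, hvB]
          congr 2
          congr 1
          ext y
          simp only [Set.mem_ofPred_eq, mem_filter, hE, hpat, decide_eq_true_eq])
      have hc : ((A a).image (fun i : Fin H => (i : ℕ))).card = (A a).card :=
        card_image_of_injective _ Fin.val_injective
      rw [hc] at h1
      have e3 : q * m (ind {y : ℤ | (q : ℤ) ∣ y - r ∧ y ∈ {y | pat y ∈ B b}}) = ∑ y ∈ B b, v y := (hvB _).symm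
      rw [e3] at h1
      rcases h1 with h1 | h1 | h1
      · left
        rw [div_le_iff₀ hHr]
        exact h1
      · exact Or.inr (Or.inl h1)
      · right; right
        linarith
    have hcard : ∀ A' : Finset (Fin H), (A'.card : ℝ) / H ≤ 1 := by
      intro A'
      rw [div_le_one hHr]
      have := Finset.card_le_univ A'
      rw [Fintype.card_fin] at this
      exact_mod_cast this
    refine four_dens hε hε1 (hcard _) ?_ ?_ ?_ (key false false) (key false true) (key true false) (key true true)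
    · rw [← hv1]
      exact Finset.sum_le_sum_of_subset_of_nonneg (Finset.subset_univ _) (fun z _ _ => hv0 z)
    · rw [← add_div]
      apply div_le_div_of_nonneg_right _ hHr.le
      exact_mod_cast card_union_le _ _
    · rw [← Finset.sum_union_inter]
      have : 0 ≤ ∑ y ∈ B false ∩ B true, v y := Finset.sum_nonneg fun z _ => hv0 z
      linarith
  -- sampling
  set w : Fin H × (J → Bool) → ℝ := fun z => v z.2 / H with hw
  have hw0 : ∀ z, 0 ≤ w z := fun z => div_nonneg (hv0 _) hHr.le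
  have hw1 : ∑ z, w z = 1 := by
    rw [Fintype.sum_prod_type]
    have e1 : ∀ x : Fin H, ∑ y : J → Bool, w (x, y) = 1 / H := by
      intro x
      rw [hw]
      simp only
      rw [← Finset.sum_div, hv1]
    simp only [e1]
    rw [Finset.sum_const, Finset.card_univ, Fintype.card_fin, nsmul_eq_mul]
    field_simp
  have hsmp : ∀ κ, ∑ ω : Fin n → Fin H × (J → Bool), wt w ω * (if Clq (10 / 9) (E κ) ω then 1 else 0) ≤ 1 / 2 := by
    intro κ
    have h1 := hn₀ n ((le_max_right _ _).trans hn) H hH (J → Bool) v hv0 hv1 (E κ)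
      (fun A B hAB => hR κ _ A B hAB)
    have e1 : (10 / 9 - ε + ε : ℝ) = 10 / 9 := by ring
    rw [e1] at h1
    exact h1
  obtain ⟨ω, hω, hωc⟩ := exists_le_mean (wt w) (fun ω : Fin n → Fin H × (J → Bool) =>
    ∑ κ : Fin 4 → Fin K₀, (if Clq (10 / 9) (E κ) ω then (1 : ℝ) else 0)) (wt_nonneg hw0) (sum_wt hw1)
    ((Fintype.card (Fin 4 → Fin K₀) : ℝ) * (1 / 2)) (by
      calc ∑ ω : Fin n → Fin H × (J → Bool), wt w ω * ∑ κ : Fin 4 → Fin K₀,
            (if Clq (10 / 9) (E κ) ω then (1 : ℝ) else 0)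
          = ∑ κ : Fin 4 → Fin K₀, ∑ ω : Fin n → Fin H × (J → Bool), wt w ω *
            (if Clq (10 / 9) (E κ) ω then (1 : ℝ) else 0) := by
            rw [Finset.sum_comm]
            exact Finset.sum_congr rfl fun ω _ => Finset.mul_sum _ _ _
        _ ≤ ∑ _κ : Fin 4 → Fin K₀, (1 / 2 : ℝ) := Finset.sum_le_sum fun κ _ => hsmp κ
        _ = _ := by rw [Finset.sum_const, Finset.card_univ, nsmul_eq_mul])
  -- the good quadruples
  set P : Finset (Fin 4 → Fin K₀) := univ.filter (fun κ => ¬ Clq (10 / 9) (E κ) ω) with hP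
  have hPc : (Fintype.card (Fin 4 → Fin K₀) : ℝ) * (1 / 2) ≤ P.card := by
    have h1 : ∑ κ : Fin 4 → Fin K₀, (if Clq (10 / 9) (E κ) ω then (1 : ℝ) else 0) =
        ((univ.filter (fun κ => Clq (10 / 9) (E κ) ω)).card : ℝ) := by
      rw [Finset.card_filter]
      push_cast
      rfl
    rw [h1] at hωc
    have h2 := Finset.card_filter_add_card_filter_not (s := (univ : Finset (Fin 4 → Fin K₀)))
      (fun κ => Clq (10 / 9) (E κ) ω)
    rw [Finset.card_univ] at h2
    have h3 : (((univ.filter (fun κ => Clq (10 / 9) (E κ) ω)).card : ℕ) : ℝ) + (P.card : ℝ) =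
        (Fintype.card (Fin 4 → Fin K₀) : ℝ) := by exact_mod_cast h2
    linarith
  set col : (Fin 4 → Fin K₀) → Mt := fun κ p => (ω p.2.2.2).2 ((ω p.2.2.1).1, κ, p.1, p.2.1) with hcol
  have hMt0 : (0 : ℝ) < Fintype.card Mt + 1 := by positivity
  obtain ⟨M, hM⟩ : ∃ M : Mt, 1 / (2 * (Fintype.card Mt + 1) : ℝ) * (Fintype.card (Fin 4 → Fin K₀) : ℝ) ≤
      ((P.filter (fun κ => col κ = M)).card : ℝ) := by
    by_contra hcon
    push Not at hcon
    have h1 : (P.card : ℝ) = ∑ M : Mt, ((P.filter (fun κ => col κ = M)).card : ℝ) := by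
      have := Finset.card_eq_sum_card_fiberwise (f := col) (s := P) (t := (univ : Finset Mt))
        (fun _ _ => mem_univ _)
      rw [this]
      push_cast
      rfl
    have h2 : ∑ M : Mt, ((P.filter (fun κ => col κ = M)).card : ℝ) ≤
        ∑ _M : Mt, 1 / (2 * (Fintype.card Mt + 1) : ℝ) * (Fintype.card (Fin 4 → Fin K₀) : ℝ) :=
      Finset.sum_le_sum fun M _ => (hcon M).le
    rw [Finset.sum_const, Finset.card_univ, nsmul_eq_mul] at h2
    have h3 : (0 : ℝ) < Fintype.card (Fin 4 → Fin K₀) := by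
      have : 0 < Fintype.card (Fin 4 → Fin K₀) := Fintype.card_pos_iff.2 ⟨fun _ => ⟨0, by omega⟩⟩
      exact_mod_cast this
    have h4 : (Fintype.card Mt : ℝ) * (1 / (2 * (Fintype.card Mt + 1) : ℝ) * (Fintype.card (Fin 4 → Fin K₀) : ℝ)) <
        (Fintype.card (Fin 4 → Fin K₀) : ℝ) * (1 / 2) := by
      have h5 : (Fintype.card Mt : ℝ) * (1 / (2 * (Fintype.card Mt + 1) : ℝ)) < 1 / 2 := by
        rw [mul_one_div, div_lt_iff₀ (by positivity)]
        linarith
      calc _ = (Fintype.card Mt : ℝ) * (1 / (2 * (Fintype.card Mt + 1) : ℝ)) * (Fintype.card (Fin 4 → Fin K₀) : ℝ) := by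
            ring
        _ < 1 / 2 * (Fintype.card (Fin 4 → Fin K₀) : ℝ) := mul_lt_mul_of_pos_right h5 h3
        _ = _ := by ring
    linarith
  obtain ⟨A4, hA4, hA4P⟩ := hN (Fin K₀) (fun _ => univ) (fun _ => by
      rw [card_univ, Fintype.card_fin]; exact le_max_left _ _)
    (P.filter (fun κ => col κ = M)) (by rw [Fintype.piFinset_univ]; exact subset_univ _) (by
      refine le_of_eq_of_le ?_ hM
      congr 1
      rw [Finset.prod_const, card_univ, card_univ, Fintype.card_fin, Fintype.card_fun, Fintype.card_fin, Fintype.card_fin]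
      push_cast
      rfl)
  -- the points y
  have hvω : ∀ j, 0 < v (ω j).2 := by
    intro j
    have h1 : w (ω j) ≠ 0 := by
      intro h0
      have : wt w ω = 0 := Finset.prod_eq_zero (mem_univ j) h0
      linarith
    have h2 := lt_of_le_of_ne (hw0 (ω j)) (Ne.symm h1)
    by_contra hcon
    push Not at hcon
    have : w (ω j) ≤ 0 := div_nonpos_of_nonpos_of_nonneg hcon hHr.le
    linarith
  set fb : ℤ := ∑ a, ∑ i, |fam a i| with hfb
  have hfb1 : ∀ a i, |fam a i| ≤ fb := by
    intro a i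
    refine (Finset.single_le_sum (f := fun i => |fam a i|) (fun _ _ => abs_nonneg _) (mem_univ i)).trans ?_
    exact Finset.single_le_sum (f := fun a => ∑ i, |fam a i|) (fun _ _ => Finset.sum_nonneg fun _ _ => abs_nonneg _)
      (mem_univ a)
  have hfb0 : 0 ≤ fb := (abs_nonneg _).trans (hfb1 true ⟨0, by omega⟩)
  set Rr : ℤ := q * (H + 2 * fb) with hRr
  obtain ⟨y, hy⟩ := sepinf Rr n (fun j => if hj : j < n then {y : ℤ | (q : ℤ) ∣ y - r ∧ pat y = (ω ⟨j, hj⟩).2} else ∅)
    (by
      intro j hj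
      rw [dif_pos hj]
      apply infinite_of_pos hm
      have h1 := hvω ⟨j, hj⟩
      rw [hv] at h1
      exact (mul_pos_iff_of_pos_left hqr).1 h1) n le_rfl
  have hyp : ∀ j : Fin n, pat (y j) = (ω j).2 := by
    intro j
    have h1 := (hy j j.2).1
    rw [dif_pos j.2] at h1
    exact h1.2
  -- the classes
  set e : Fin n → Fin K → Fin (n * K) := fun i k => finProdFinEquiv (i, k) with he
  have heinj : ∀ i k i' k', e i k = e i' k' → i = i' ∧ k = k' := by
    intro i k i' k' h
    have := finProdFinEquiv.injective h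
    exact ⟨congrArg Prod.fst this, congrArg Prod.snd this⟩
  set X : Bool → Fin n → Fin K → ℤ := fun a i k => q * (((ω i).1 : ℕ) + fam a (A4 (ia a) (e i k))) with hX
  set Z : Bool → Fin n → Fin K → ℤ := fun b j k => y j + q * fam b (A4 (ib b) (e j k)) with hZ
  refine ⟨X, Z, ?_, ?_, ?_, ?_, ?_, ?_⟩
  · intro a i k a' i' k' h
    have h1 : (((ω i).1 : ℕ) : ℤ) + fam a (A4 (ia a) (e i k)) =
        (((ω i').1 : ℕ) : ℤ) + fam a' (A4 (ia a') (e i' k')) := mul_left_cancel₀ hq0.ne' h
    have h2 : (a, A4 (ia a) (e i k)) = (a', A4 (ia a') (e i' k')) := by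
      by_contra hne
      have h3 := hfs _ _ _ _ hne
      have h4 : fam a (A4 (ia a) (e i k)) - fam a' (A4 (ia a') (e i' k')) =
          (((ω i').1 : ℕ) : ℤ) - (((ω i).1 : ℕ) : ℤ) := by linarith
      rw [h4] at h3
      have h5 := (ω i).1.2
      have h6 := (ω i').1.2
      have h7 : |(((ω i').1 : ℕ) : ℤ) - (((ω i).1 : ℕ) : ℤ)| ≤ H := by
        rw [abs_le]
        constructor <;> omega
      linarith
    have h8 : a = a' := congrArg Prod.fst h2
    subst h8
    have h9 := heinj _ _ _ _ (hA4 _ (congrArg Prod.snd h2))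
    exact ⟨rfl, h9.1, h9.2⟩
  · intro b j k b' j' k' h
    have h0 : y j + q * fam b (A4 (ib b) (e j k)) = y j' + q * fam b' (A4 (ib b') (e j' k')) := h
    have h1 : j = j' := by
      by_contra hne
      have h2 : Rr < |y j - y j'| := by
        rcases lt_or_gt_of_ne (fun h => hne (Fin.ext h) : (j : ℕ) ≠ j') with h3 | h3
        · rw [abs_sub_comm]
          exact (hy j' j'.2).2.2 j h3
        · exact (hy j j.2).2.2 j' h3
      have h3 : y j - y j' = q * (fam b' (A4 (ib b') (e j' k')) - fam b (A4 (ib b) (e j k))) := by linarith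
      rw [h3, abs_mul, abs_of_pos hq0] at h2
      have h4 : |fam b' (A4 (ib b') (e j' k')) - fam b (A4 (ib b) (e j k))| ≤ 2 * fb := by
        refine (abs_sub _ _).trans ?_
        linarith [hfb1 b' (A4 (ib b') (e j' k')), hfb1 b (A4 (ib b) (e j k))]
      have h5 : (q : ℤ) * |fam b' (A4 (ib b') (e j' k')) - fam b (A4 (ib b) (e j k))| ≤ q * (H + 2 * fb) := by
        apply mul_le_mul_of_nonneg_left _ hq0.le
        have : (0 : ℤ) ≤ H := Nat.cast_nonneg _
        linarith
      linarith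
    subst h1
    have h6 : fam b (A4 (ib b) (e j k)) = fam b' (A4 (ib b') (e j k')) := by
      have : (q : ℤ) * fam b (A4 (ib b) (e j k)) = q * fam b' (A4 (ib b') (e j k')) := by linarith
      exact mul_left_cancel₀ hq0.ne' this
    have h2 : (b, A4 (ib b) (e j k)) = (b', A4 (ib b') (e j k')) := by
      by_contra hne
      have h3 := hfs _ _ _ _ hne
      rw [h6, sub_self, abs_zero] at h3
      have : (0 : ℤ) ≤ H := Nat.cast_nonneg _
      linarith
    have h8 : b = b' := congrArg Prod.fst h2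
    subst h8
    have h9 := heinj _ _ _ _ (hA4 _ (congrArg Prod.snd h2))
    exact ⟨rfl, rfl, h9.2⟩
  · intro a i k b j k' h
    have h0 : (q : ℤ) * (((ω i).1 : ℕ) + fam a (A4 (ia a) (e i k))) = y j + q * fam b (A4 (ib b) (e j k')) := h
    have h1 := (hy j j.2).2.1
    have h2 : y j = q * (((ω i).1 : ℕ) + fam a (A4 (ia a) (e i k)) - fam b (A4 (ib b) (e j k'))) := by linarith
    rw [h2, abs_mul, abs_of_pos hq0] at h1
    have h3 : |(((ω i).1 : ℕ) : ℤ) + fam a (A4 (ia a) (e i k)) - fam b (A4 (ib b) (e j k'))| ≤ H + 2 * fb := by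
      have h4 := abs_le.1 (hfb1 a (A4 (ia a) (e i k)))
      have h5 := abs_le.1 (hfb1 b (A4 (ib b) (e j k')))
      have h6 := (ω i).1.2
      have h7 : (((ω i).1 : ℕ) : ℤ) ≤ H := by exact_mod_cast h6.le
      have h8 : (0 : ℤ) ≤ (((ω i).1 : ℕ) : ℤ) := Nat.cast_nonneg _
      rw [abs_le]
      constructor <;> linarith
    have h5 := mul_le_mul_of_nonneg_left h3 hq0.le
    linarith
  · intro i k k'
    have h1 := hfV (A4 (ia false) (e i k)) (A4 (ia true) (e i k'))
    have h2 : X true i k' - X false i k = q * (fam true (A4 (ia true) (e i k')) - fam false (A4 (ia false) (e i k))) := by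
      rw [hX]; ring
    rw [h2]
    exact h1
  · intro j k k'
    have h1 := hfV (A4 (ib false) (e j k)) (A4 (ib true) (e j k'))
    have h2 : Z true j k' - Z false j k = q * (fam true (A4 (ib true) (e j k')) - fam false (A4 (ib false) (e j k))) := by
      rw [hZ]; ring
    rw [h2]
    exact h1
  · intro S S' hS hS' hcard
    have hnK : 0 < n * K := Nat.mul_pos hn1 hK
    have hmem : ∀ c : Fin 4 → Fin (n * K), ¬ Clq (10 / 9) (E (fun i => A4 i (c i))) ω ∧ col (fun i => A4 i (c i)) = M := by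
      intro c
      have h1 := mem_filter.1 (hA4P c)
      exact ⟨(mem_filter.1 h1.1).2, h1.2⟩
    have h1 := (hmem (fun _ => ⟨0, hnK⟩)).1
    unfold Clq at h1
    push Not at h1
    obtain ⟨a, b, i, hi, j, hj, hEij⟩ := h1 S S' hS hS' hcard
    refine ⟨a, b, i, hi, j, hj, fun k k' => ?_⟩
    -- the entry of the matrix
    have hent : M (a, b, i, j) = true := by
      rw [← (hmem (fun _ => ⟨0, hnK⟩)).2]
      rw [hE] at hEij
      exact hEij
    set c : Fin 4 → Fin (n * K) := fun t => if t = ia a then e i k else e j k' with hc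
    have hca : c (ia a) = e i k := if_pos rfl
    have hcb : c (ib b) = e j k' := if_neg (ia_ne_ib a b).symm
    have h2 := (hmem c).2
    have h3 : (ω j).2 ((ω i).1, (fun i => A4 i (c i)), a, b) = true := by
      rw [← hent, ← h2]
    rw [← hyp j] at h3
    simp only [hpat, decide_eq_true_eq, hsft, hca, hcb] at h3
    have h4 : Z b j k' - D * X a i k = y j - D * (q * (((ω i).1 : ℕ) : ℤ)) +
        q * (fam b (A4 (ib b) (e j k')) - D * fam a (A4 (ia a) (e i k))) := by
      rw [hX, hZ]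
      ring
    rw [h4]
    exact h3

end Pool.Agent.N679.SD
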