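import Mathlib
import Pool.Agent.N679.PD.Adm

/-! # Project SD: differences of constant terms, densities in classes -/

set_option autoImplicit false

namespace Pool.Agent.N679.SD

open Finset Filter
open Pool.Agent.N679.PD (Adm kst_adm gcd_one gcd_ne)

/-- rectangles of differences in a set of multiples which is not sparse -/
theorem rect (K' : ℕ) (hK' : 1 ≤ K') : ∃ C : ℝ, ∀ N q : ℕ, 2 ∣ N → 1 ≤ N → 1 ≤ q → ∀ (A : ℤ) (H : ℕ), 1 ≤ H →
    ∀ S ⊆ Ioc A (A + H), (∀ a ∈ S, ((N * q : ℕ) : ℤ) ∣ a) → C * (H : ℝ) ^ (1 - 1 / (K' : ℝ)) < (S.card : ℝ) →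
    ∃ L L' : Fin K' → ℤ, Function.Injective L ∧ Function.Injective L' ∧
      ∀ i j, (N : ℤ) * (q * (L' j - L i)) ∈ S := by
  obtain ⟨C, hC⟩ := kst_adm K' hK' 1 1 one_pos
  refine ⟨C, fun N q hN hN0 hq A H hH S hSs hSd hcard => ?_⟩
  obtain ⟨L, L', hL, hL', _, _, hS⟩ := hC A H hH S hSs (by
    intro a ha
    have h1 := hSd a ha
    refine ⟨by simp, ?_⟩
    have h2 : ((2 : ℕ) : ℤ) ∣ ((N * q : ℕ) : ℤ) := by exact_mod_cast hN.mul_right q
    push_cast at h2 h1 ⊢
    rw [mul_one]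
    exact h2.trans h1) hcard
  simp only [Nat.cast_one, one_mul] at hS
  set i0 : Fin K' := ⟨0, hK'⟩ with hi0
  have hd1 : ∀ i, ((N * q : ℕ) : ℤ) ∣ L i - L i0 := by
    intro i
    have := dvd_sub (hSd _ (hS i0 i0)) (hSd _ (hS i i0))
    have e : L' i0 - L i0 - (L' i0 - L i) = L i - L i0 := by ring
    rwa [e] at this
  have hd2 : ∀ j, ((N * q : ℕ) : ℤ) ∣ L' j - L i0 := fun j => hSd _ (hS i0 j)
  choose l hl using hd1
  choose l' hl' using hd2
  refine ⟨l, l', fun i j hij => hL ?_, fun i j hij => hL' ?_, fun i j => ?_⟩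
  · have h1 := hl i
    have h2 := hl j
    rw [hij] at h1
    linarith
  · have h1 := hl' i
    have h2 := hl' j
    rw [hij] at h1
    linarith
  · have e : (N : ℤ) * (q * (l' j - l i)) = L' j - L i := by
      have h1 := hl i
      have h2 := hl' j
      push_cast at h1 h2
      linear_combination h1 - h2
    rw [e]
    exact hS i j

open Classical in
/-- the elements of a class in a window -/
theorem cls_card (N : ℕ) (hN : 1 ≤ N) (α A : ℤ) (H : ℕ) : ∃ (u : ℤ) (L : ℕ), H < N * (L + 1) ∧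
    ∀ P : ℤ → Prop, ((Ioc A (A + H)).filter (fun a => (N : ℤ) ∣ a - α ∧ P a)).card =
      {n : ℕ | n < L ∧ P (α + N * (u + n))}.ncard := by
  have hN0 : (0 : ℤ) < N := by exact_mod_cast hN
  obtain ⟨L, hL⟩ : ∃ L : ℕ, (L : ℤ) = (A + H - α) / N - (A - α) / N := by
    refine ⟨((A + H - α) / N - (A - α) / N).toNat, Int.toNat_of_nonneg ?_⟩
    rw [sub_nonneg]
    exact Int.ediv_le_ediv hN0 (by linarith [(Nat.cast_nonneg H : (0 : ℤ) ≤ H)])
  have hmem : ∀ s : ℤ, (A < α + N * s ∧ α + N * s ≤ A + H) ↔ ((A - α) / N < s ∧ s ≤ (A + H - α) / N) := by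
    intro s
    rw [Int.ediv_lt_iff_lt_mul hN0, Int.le_ediv_iff_mul_le hN0]
    constructor
    · rintro ⟨h1, h2⟩
      constructor <;> linarith [mul_comm (N : ℤ) s]
    · rintro ⟨h1, h2⟩
      constructor <;> linarith [mul_comm (N : ℤ) s]
  refine ⟨(A - α) / N + 1, L, ?_, fun P => ?_⟩
  · have h1 := Int.emod_add_mul_ediv (A + H - α) N
    have h2 := Int.emod_add_mul_ediv (A - α) N
    have h3 := Int.emod_lt_of_pos (A + H - α) hN0
    have h4 := Int.emod_nonneg (A - α) hN0.ne'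
    have h5 : (H : ℤ) < N * (L + 1) := by
      rw [hL]
      have : (N : ℤ) * ((A + H - α) / N - (A - α) / N + 1) = N * ((A + H - α) / N) - N * ((A - α) / N) + N := by ring
      rw [this]
      linarith
    exact_mod_cast h5
  · have hfin : {n : ℕ | n < L ∧ P (α + N * ((A - α) / N + 1 + n))}.Finite :=
      (Set.finite_Iio L).subset (fun n hn => hn.1)
    rw [← Set.ncard_coe_finset]
    symm
    apply Set.ncard_congr (fun (n : ℕ) _ => α + N * ((A - α) / N + 1 + (n : ℤ)))
    · rintro n ⟨h1, h2⟩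
      rw [mem_coe, mem_filter, mem_Ioc]
      refine ⟨(hmem _).2 ⟨by linarith [(Nat.cast_nonneg n : (0 : ℤ) ≤ n)], ?_⟩, ?_, h2⟩
      · have : (n : ℤ) < L := by exact_mod_cast h1
        linarith
      · rw [add_sub_cancel_left]
        exact Dvd.intro _ rfl
    · rintro n n' _ _ he
      have h1 : (N : ℤ) * ((A - α) / N + 1 + n) = N * ((A - α) / N + 1 + n') := by linarith
      have h2 := mul_left_cancel₀ hN0.ne' h1
      have h3 : (n : ℤ) = n' := by linarith
      exact_mod_cast h3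
    · intro a ha
      rw [mem_coe, mem_filter, mem_Ioc] at ha
      obtain ⟨h1, ⟨s, hs⟩, h3⟩ := ha
      have e : a = α + N * s := by linarith
      rw [e] at h1 h3
      obtain ⟨h4, h5⟩ := (hmem s).1 h1
      have e2 : (A - α) / N + 1 + ((s - ((A - α) / N + 1)).toNat : ℤ) = s := by
        rw [Int.toNat_of_nonneg (by linarith)]
        ring
      refine ⟨(s - ((A - α) / N + 1)).toNat, ⟨?_, ?_⟩, ?_⟩
      · zify
        rw [Int.toNat_of_nonneg (by linarith), hL]
        linarith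
      · rw [e2]
        exact h3
      · show α + N * ((A - α) / N + 1 + ((s - ((A - α) / N + 1)).toNat : ℤ)) = a
        rw [e2, e]

theorem split (N : ℕ) (hN : 1 ≤ N) (s : Finset ℤ) :
    s.card = ∑ α ∈ range N, (s.filter (fun a => (N : ℤ) ∣ a - α)).card := by
  have hN0 : (0 : ℤ) < N := by exact_mod_cast hN
  rw [Finset.card_eq_sum_card_fiberwise (f := fun a : ℤ => (a % N).toNat) (t := range N) (by
    intro a _
    have h1 := Int.emod_lt_of_pos a hN0
    have h2 := Int.emod_nonneg a hN0.ne'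
    show (a % N).toNat ∈ (range N : Set ℕ)
    rw [mem_coe, mem_range]
    omega)]
  apply Finset.sum_congr rfl
  intro α hα
  rw [mem_range] at hα
  congr 1
  apply Finset.filter_congr
  intro a _
  have h1 := Int.emod_lt_of_pos a hN0
  have h2 := Int.emod_nonneg a hN0.ne'
  constructor
  · intro h
    have h3 : a % N = α := by omega
    rw [← h3]
    exact Int.dvd_self_sub_emod
  · intro h
    have h3 : a % N = (α : ℤ) % N := Int.emod_eq_emod_iff_emod_sub_eq_zero.2 (Int.emod_eq_zero_of_dvd h)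
    have h4 : (α : ℤ) % N = α := Int.emod_eq_of_lt (by positivity) (by exact_mod_cast hα)
    rw [h4] at h3
    omega

theorem adm_shift {a b d : ℤ} {N : ℕ} (h2 : 2 ∣ N) (hd : d ∣ N) (hab : (N : ℤ) ∣ a - b) (h : Adm b d) : Adm a d := by
  have h2' : (2 : ℤ) ∣ N := by exact_mod_cast h2
  constructor
  · refine gcd_one fun p hp h1 h3 => ?_
    have h4 : (p : ℤ) ∣ a - b := h3.trans (hd.trans hab)
    have h5 : (p : ℤ) ∣ b := by
      have := dvd_sub h1 h4
      rwa [sub_sub_cancel] at this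
    exact gcd_ne h.1 hp h5 h3
  · have h4 : (2 : ℤ) ∣ (a - b) * d := (h2'.trans hab).mul_right _
    have h5 := dvd_add h4 h.2
    have e : (a - b) * d + b * d = a * d := by ring
    rwa [e] at h5

open Classical in
/-- a class in which the density is large -/
theorem dens {d N N₀ : ℕ} (hN : 1 ≤ N) (h2 : 2 ∣ N) (hdN : d ∣ N) (hN₀ : N₀ ∣ N) (r : ℤ)
    (G : ℤ → Prop) (hG : ∀ a, G a → Adm a d) (ρ : ℝ)
    (h : ∀ L : ℕ, ∃ (A : ℤ) (H : ℕ), L ≤ H ∧
      (((Ioc A (A + H)).filter (fun a : ℤ => (N₀ : ℤ) ∣ a - r ∧ G a)).card : ℝ) <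
        (1 - ρ) * (((Ioc A (A + H)).filter (fun a : ℤ => (N₀ : ℤ) ∣ a - r ∧ Adm a d)).card : ℝ)) :
    ∃ α : ℤ, 0 ≤ α ∧ α < N ∧ Adm α d ∧ ∀ L₀ : ℕ, ∃ L : ℕ, L₀ ≤ L ∧ ∃ u : ℤ,
      ρ * L ≤ ({n : ℕ | n < L ∧ u + (n : ℤ) ∈ {s : ℤ | ¬ G (α + N * s)}}.ncard : ℝ) := by
  by_contra hcon
  push Not at hcon
  have hdN' : (d : ℤ) ∣ N := by exact_mod_cast hdN
  have hN₀' : (N₀ : ℤ) ∣ N := by exact_mod_cast hN₀
  have hex : ∀ α : ℕ, ∃ L₀ : ℕ, α < N → Adm α d → ∀ L : ℕ, L₀ ≤ L → ∀ u : ℤ,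
      ({n : ℕ | n < L ∧ u + (n : ℤ) ∈ {s : ℤ | ¬ G (α + N * s)}}.ncard : ℝ) < ρ * L := by
    intro α
    by_cases hα : α < N ∧ Adm α d
    · obtain ⟨L₀, hL₀⟩ := hcon α (by positivity) (by exact_mod_cast hα.1) hα.2
      exact ⟨L₀, fun _ _ => hL₀⟩
    · exact ⟨0, fun h1 h2 => absurd ⟨h1, h2⟩ hα⟩
  choose L₀ hL₀ using hex
  set Lm : ℕ := ∑ α ∈ range N, L₀ α with hLm
  obtain ⟨A, H, hH, hlt⟩ := h (N * (Lm + 1))
  set ad : Finset ℤ := (Ioc A (A + H)).filter (fun a : ℤ => (N₀ : ℤ) ∣ a - r ∧ Adm a d) with had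
  set bd : Finset ℤ := (Ioc A (A + H)).filter (fun a : ℤ => (N₀ : ℤ) ∣ a - r ∧ Adm a d ∧ ¬ G a) with hbd
  set gd : Finset ℤ := (Ioc A (A + H)).filter (fun a : ℤ => (N₀ : ℤ) ∣ a - r ∧ G a) with hgd
  have hsum : gd.card + bd.card = ad.card := by
    rw [← Finset.card_filter_add_card_filter_not (s := ad) (fun a => G a)]
    congr 2
    · rw [had, hgd, filter_filter]
      apply filter_congr
      intro a _
      constructor
      · rintro ⟨h1, h3⟩; exact ⟨⟨h1, hG a h3⟩, h3⟩
      · rintro ⟨⟨h1, _⟩, h3⟩; exact ⟨h1, h3⟩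
    · rw [had, hbd, filter_filter]
      apply filter_congr
      intro a _
      tauto
  have hle : (bd.card : ℝ) ≤ ρ * ad.card := by
    rw [split N hN bd, split N hN ad]
    push_cast
    rw [mul_sum]
    apply Finset.sum_le_sum
    intro α hα
    have hα' := mem_range.1 hα
    by_cases hc : (N₀ : ℤ) ∣ α - r ∧ Adm α d
    · obtain ⟨u, L, hL, hP⟩ := cls_card N hN α A H
      have h1 : (bd.filter (fun a => (N : ℤ) ∣ a - α)).card =
          {n : ℕ | n < L ∧ ¬ G (α + N * (u + n))}.ncard := by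
        rw [← hP (fun a => ¬ G a), hbd, filter_filter]
        congr 1
        ext a
        simp only [mem_filter]
        constructor
        · rintro ⟨h5, ⟨_, _, h3⟩, h4⟩
          exact ⟨h5, h4, h3⟩
        · rintro ⟨h5, h4, h3⟩
          refine ⟨h5, ⟨?_, adm_shift h2 hdN' h4 hc.2, h3⟩, h4⟩
          have := dvd_add (hN₀'.trans h4) hc.1
          rwa [sub_add_sub_cancel] at this
      have h3 : (ad.filter (fun a => (N : ℤ) ∣ a - α)).card = L := by
        have e1 : {n : ℕ | n < L ∧ True}.ncard = L := by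
          have : {n : ℕ | n < L ∧ True} = ((range L : Finset ℕ) : Set ℕ) := by ext; simp
          rw [this, Set.ncard_coe_finset, card_range]
        have e2 := hP (fun _ => True)
        rw [e1] at e2
        rw [← e2, had, filter_filter]
        congr 1
        ext a
        simp only [mem_filter]
        constructor
        · rintro ⟨h5, _, h4⟩
          exact ⟨h5, h4, trivial⟩
        · rintro ⟨h5, h4, _⟩
          refine ⟨h5, ⟨?_, adm_shift h2 hdN' h4 hc.2⟩, h4⟩
          have := dvd_add (hN₀'.trans h4) hc.1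
          rwa [sub_add_sub_cancel] at this
      rw [h1, h3]
      have h4 : L₀ α ≤ Lm := Finset.single_le_sum (f := L₀) (fun _ _ => Nat.zero_le _) hα
      have h5 : N * (Lm + 1) < N * (L + 1) := lt_of_le_of_lt hH hL
      have h6 := lt_of_mul_lt_mul_left h5 (Nat.zero_le _)
      have h7 := hL₀ α hα' hc.2 L (by omega) u
      exact h7.le
    · have h1 : bd.filter (fun a => (N : ℤ) ∣ a - α) = ∅ := by
        rw [filter_eq_empty_iff]
        intro a ha hd
        rw [hbd, mem_filter] at ha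
        apply hc
        have hd' : (N : ℤ) ∣ α - a := by
          rw [← neg_sub]
          exact hd.neg_right
        refine ⟨?_, adm_shift h2 hdN' hd' ha.2.2.1⟩
        have := dvd_add (hN₀'.trans hd') ha.2.1
        rwa [sub_add_sub_cancel] at this
      have h3 : ad.filter (fun a => (N : ℤ) ∣ a - α) = ∅ := by
        rw [filter_eq_empty_iff]
        intro a ha hd
        rw [had, mem_filter] at ha
        apply hc
        have hd' : (N : ℤ) ∣ α - a := by
          rw [← neg_sub]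
          exact hd.neg_right
        refine ⟨?_, adm_shift h2 hdN' hd' ha.2.2⟩
        have := dvd_add (hN₀'.trans hd') ha.2.1
        rwa [sub_add_sub_cancel] at this
      rw [h1, h3]
      simp
  have h8 : ((gd.card + bd.card : ℕ) : ℝ) = ad.card := by exact_mod_cast hsum
  push_cast at h8
  linarith

end Pool.Agent.N679.SD
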