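import Mathlib
import Pool.Agent.N679.PD.Key
import Pool.Agent.N679.SD.Den

/-! # Project SD: from forms to classes of constant terms -/

set_option autoImplicit false

namespace Pool.Agent.N679.SD

open Finset Filter
open Pool.Agent.Y827.GS (cntN cntN_anti Adf adf_ev)
open Pool.Agent.N679.PD

theorem bad_ev {B : ℕ} {a d : ℤ} (ha : Adm a d) (h : ¬ Oft B a d) :
    ∀ᶠ x : ℕ in atTop, (cnt a d x : ℝ) < (x : ℝ) / (Real.log x) ^ B := by
  have h1 : ¬ ∃ᶠ x : ℕ in atTop, (x : ℝ) / (Real.log x) ^ B ≤ (cnt a d x : ℝ) := fun h2 => h ⟨ha, h2⟩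
  rw [not_frequently] at h1
  filter_upwards [h1] with x hx
  exact not_le.1 hx

open Classical in
/-- at least 10 n / 9 of the 4 n classes have forms which are prime together -/
theorem many (n : ℕ) (hn : 1 ≤ n) : ∃ K : ℕ, 1 ≤ K ∧ ∀ f : Bool × Bool × Fin n → Fin K → ℤ × ℤ,
    Function.Injective (fun x : (Bool × Bool × Fin n) × Fin K => f x.1 x.2) →
    (∀ g i, 0 < (f g i).1 ∧ IsCoprime (f g i).1 (f g i).2) →
    (∀ p : ℕ, p.Prime → p ≤ 4 * n * K → ∃ r : ℤ, ∀ g i, ¬ (p : ℤ) ∣ (f g i).1 * r + (f g i).2) →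
    ∀ᶠ N : ℕ in atTop, ∃ (S : Finset (Bool × Bool × Fin n)) (c : Bool × Bool × Fin n → Fin K),
      (10 / 9 : ℝ) * n ≤ S.card ∧ ∀ g ∈ S, ∀ g' ∈ S,
        (N : ℝ) / (Real.log N) ^ (4 * n * K + 2) ≤ (cntN {f g (c g), f g' (c g')} N : ℝ) := by
  obtain ⟨K, hK, h⟩ := Pool.Agent.Y827.RO.lamRD (4 * n)
  refine ⟨K, hK, fun f hinj hpos hloc => ?_⟩
  set e : Bool × Bool × Fin n ≃ Fin (4 * n) := Fintype.equivFinOfCardEq (by simp; ring) with he
  obtain ⟨A, hA⟩ := adf_ev (univ.image (fun x : (Bool × Bool × Fin n) × Fin K => f x.1 x.2)) (by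
    intro f hf
    obtain ⟨x, _, rfl⟩ := mem_image.1 hf
    exact hpos _ _)
  filter_upwards [h (by omega) A, hA] with N hN hA
  obtain ⟨S, c, h3, h4⟩ := hN (fun g i => f (e.symm g) i) (by
      intro x y hxy
      have := hinj (a₁ := (e.symm x.1, x.2)) (a₂ := (e.symm y.1, y.2)) hxy
      rw [Prod.mk.injEq] at this
      exact Prod.ext (e.symm.injective this.1) this.2)
    (fun g i => hA _ (mem_image.2 ⟨(e.symm g, i), mem_univ _, rfl⟩))
    (fun p hp hle => by
      obtain ⟨r, hr⟩ := hloc p hp hle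
      exact ⟨r, fun g i => hr _ _⟩)
  refine ⟨S.image e.symm, fun g => c (e g), ?_, ?_⟩
  · rw [card_image_of_injective _ e.symm.injective]
    push_cast at h3
    linarith
  · intro g hg g' hg'
    obtain ⟨u, hu, rfl⟩ := mem_image.1 hg
    obtain ⟨v, hv, rfl⟩ := mem_image.1 hg'
    refine h4.trans ?_
    have := cntN_anti (F := S.image (fun g => f (e.symm g) (c g)))
      (F' := {f (e.symm u) (c (e (e.symm u))), f (e.symm v) (c (e (e.symm v)))}) (by
        intro f hf
        rw [mem_insert, mem_singleton] at hf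
        rcases hf with rfl | rfl
        · rw [e.apply_symm_apply]
          exact mem_image.2 ⟨u, hu, rfl⟩
        · rw [e.apply_symm_apply]
          exact mem_image.2 ⟨v, hv, rfl⟩) N
    exact_mod_cast this

open Classical in
theorem glue {n K : ℕ} (many : ∀ f : Bool × Bool × Fin n → Fin K → ℤ × ℤ,
    Function.Injective (fun x : (Bool × Bool × Fin n) × Fin K => f x.1 x.2) →
    (∀ g i, 0 < (f g i).1 ∧ IsCoprime (f g i).1 (f g i).2) →
    (∀ p : ℕ, p.Prime → p ≤ 4 * n * K → ∃ r : ℤ, ∀ g i, ¬ (p : ℤ) ∣ (f g i).1 * r + (f g i).2) →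
    ∀ᶠ N : ℕ in atTop, ∃ (S : Finset (Bool × Bool × Fin n)) (c : Bool × Bool × Fin n → Fin K),
      (10 / 9 : ℝ) * n ≤ S.card ∧ ∀ g ∈ S, ∀ g' ∈ S,
        (N : ℝ) / (Real.log N) ^ (4 * n * K + 2) ≤ (cntN {f g (c g), f g' (c g')} N : ℝ))
    {d N : ℕ} (hd : 1 ≤ d) (hN : 1 ≤ N) (h2 : 2 ∣ N) (hNp : ∀ p : ℕ, p.Prime → p ≤ 4 * n * K → p ∣ N)
    (hdN : d ∣ N) {α : ℤ} (hα0 : 0 ≤ α) (hα1 : α < N) (hα : Adm α d) (X Z : Bool → Fin n → Fin K → ℤ)
    (hX : ∀ a i k a' i' k', X a i k = X a' i' k' → a = a' ∧ i = i' ∧ k = k')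
    (hZ : ∀ a i k a' i' k', Z a i k = Z a' i' k' → a = a' ∧ i = i' ∧ k = k')
    (hXZ : ∀ a i k a' i' k', X a i k ≠ Z a' i' k')
    (hV : ∃ᶠ x : ℕ in atTop, (∀ i k k',
        (cnt (N * (X true i k' - X false i k)) 1 x : ℝ) < (x : ℝ) / (Real.log x) ^ (4 * n * K + 3)) ∧
      ∀ i k k', (cnt (N * (Z true i k' - Z false i k)) 1 x : ℝ) < (x : ℝ) / (Real.log x) ^ (4 * n * K + 3))
    (hU : ∀ S S' : Bool → Finset (Fin n), Disjoint (S false) (S true) → Disjoint (S' false) (S' true) →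
        (10 / 9 : ℝ) * n ≤ ((S false).card + (S true).card + (S' false).card + (S' true).card : ℕ) →
        ∃ a b, ∃ i ∈ S a, ∃ j ∈ S' b, ∀ k k', ¬ Oft (4 * n * K + 3) (α + N * (Z b j k' - d * X a i k)) d) :
    False := by
  obtain ⟨l0, _, hl1, hl2⟩ := exists_y N d hN α hα 0
  have hN0 : (0 : ℤ) < N := by exact_mod_cast hN
  have hd0 : (0 : ℤ) < d := by exact_mod_cast hd
  have hdN' : (d : ℤ) ∣ N := by exact_mod_cast hdN
  obtain ⟨r0, hr0⟩ : ∃ r0 : ℤ, r0 = α + d * l0 := ⟨_, rfl⟩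
  rw [← hr0] at hl2
  set f : Bool × Bool × Fin n → Fin K → ℤ × ℤ := fun g k =>
    if g.1 = true then ((d : ℤ), r0 + N * Z g.2.1 g.2.2 k) else (1, l0 + N * X g.2.1 g.2.2 k) with hf
  have hf1 : ∀ a i k, f (false, a, i) k = (1, l0 + N * X a i k) := fun a i k => rfl
  have hf2 : ∀ a i k, f (true, a, i) k = ((d : ℤ), r0 + N * Z a i k) := fun a i k => rfl
  -- the constant terms are prime to `N`
  have hcoN : ∀ g k (p : ℕ), p.Prime → (p : ℤ) ∣ N → ¬ (p : ℤ) ∣ (f g k).2 := by
    rintro ⟨s, a, i⟩ k p hp hpN hdv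
    cases s
    · rw [hf1] at hdv
      exact gcd_ne hl1 hp ((dvd_add_left (hpN.mul_right _)).1 hdv) hpN
    · rw [hf2] at hdv
      exact gcd_ne hl2 hp ((dvd_add_left (hpN.mul_right _)).1 hdv) (by push_cast; exact hpN.mul_right _)
  have hpos : ∀ g k, 0 < (f g k).1 ∧ IsCoprime (f g k).1 (f g k).2 := by
    rintro ⟨s, a, i⟩ k
    cases s
    · rw [hf1]
      exact ⟨one_pos, isCoprime_one_left⟩
    · refine ⟨by rw [hf2]; exact hd0, ?_⟩
      rw [Int.isCoprime_iff_gcd_eq_one]
      refine gcd_one fun p hp h1 h3 => hcoN _ _ p hp ?_ h3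
      rw [hf2] at h1
      exact h1.trans hdN'
  have hinj : Function.Injective (fun x : (Bool × Bool × Fin n) × Fin K => f x.1 x.2) := by
    rintro ⟨⟨s, a, i⟩, k⟩ ⟨⟨s', a', i'⟩, k'⟩ h
    simp only at h
    cases s <;> cases s'
    · rw [hf1, hf1, Prod.mk.injEq] at h
      have h1 : (N : ℤ) * X a i k = N * X a' i' k' := by linarith [h.2]
      obtain ⟨rfl, rfl, rfl⟩ := hX _ _ _ _ _ _ (mul_left_cancel₀ hN0.ne' h1)
      rfl
    · exfalso
      rw [hf1, hf2, Prod.mk.injEq] at h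
      obtain ⟨h1, h3⟩ := h
      rw [hr0, ← h1, one_mul] at h3
      have h4 : α = N * (X a i k - Z a' i' k') := by linarith
      have h5 : X a i k - Z a' i' k' = 0 := by
        rcases lt_trichotomy (X a i k - Z a' i' k') 0 with h6 | h6 | h6
        · have : (N : ℤ) * (X a i k - Z a' i' k') < 0 := mul_neg_of_pos_of_neg hN0 h6
          linarith
        · exact h6
        · have : (N : ℤ) * 1 ≤ N * (X a i k - Z a' i' k') := mul_le_mul_of_nonneg_left h6 hN0.le
          linarith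
      exact hXZ a i k a' i' k' (by linarith)
    · exfalso
      rw [hf1, hf2, Prod.mk.injEq] at h
      obtain ⟨h1, h3⟩ := h
      rw [hr0, h1, one_mul] at h3
      have h4 : α = N * (X a' i' k' - Z a i k) := by linarith
      have h5 : X a' i' k' - Z a i k = 0 := by
        rcases lt_trichotomy (X a' i' k' - Z a i k) 0 with h6 | h6 | h6
        · have : (N : ℤ) * (X a' i' k' - Z a i k) < 0 := mul_neg_of_pos_of_neg hN0 h6
          linarith
        · exact h6
        · have : (N : ℤ) * 1 ≤ N * (X a' i' k' - Z a i k) := mul_le_mul_of_nonneg_left h6 hN0.le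
          linarith
      exact hXZ a' i' k' a i k (by linarith)
    · rw [hf2, hf2, Prod.mk.injEq] at h
      have h1 : (N : ℤ) * Z a i k = N * Z a' i' k' := by linarith [h.2]
      obtain ⟨rfl, rfl, rfl⟩ := hZ _ _ _ _ _ _ (mul_left_cancel₀ hN0.ne' h1)
      rfl
  have hmany := many f hinj hpos (fun p hp hle => ⟨0, fun g i hdv => by
    rw [mul_zero, zero_add] at hdv
    exact hcoN g i p hp (by exact_mod_cast hNp p hp hle) hdv⟩)
  -- a bound for the constant terms
  obtain ⟨w, hw⟩ : ∃ w : ℕ, ∀ g k, (f g k).2 ≤ w := by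
    obtain ⟨M, hM⟩ := (Set.finite_range (fun x : (Bool × Bool × Fin n) × Fin K => (f x.1 x.2).2)).bddAbove
    refine ⟨M.toNat, fun g k => (hM ⟨(g, k), rfl⟩).trans (Int.self_le_toNat _)⟩
  set B : ℕ := 4 * n * K + 2 + 1 with hB
  have hadm2 : ∀ t : ℤ, Adm (α + N * t) d := fun t =>
    adm_shift h2 hdN' (by rw [add_sub_cancel_left]; exact Dvd.intro _ rfl) hα
  have e3 : ∀ᶠ x : ℕ in atTop, ∀ a b i j k k', ¬ Oft (4 * n * K + 3) (α + N * (Z b j k' - d * X a i k)) d →
      (cnt (α + N * (Z b j k' - d * X a i k)) d x : ℝ) < (x : ℝ) / (Real.log x) ^ B := by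
    simp only [Filter.eventually_all]
    exact fun a b i j k k' h => bad_ev (hadm2 _) h
  obtain ⟨x, ⟨hx1, hx2⟩, hx3, ⟨hsc1, hsc2⟩, S, c, hS, hcl⟩ :=
    (hV.and_eventually (e3.and ((scale (C := 4 * n * K + 2) (s := d) (w := w) hd).and
      ((tendsto_scale (s := d) (w := w) hd).eventually hmany)))).exists
  set Nx : ℕ := (x - w) / d with hNx
  have hxle : (d : ℤ) * Nx + w ≤ x := by exact_mod_cast hsc2
  have hxle1 : (1 : ℤ) * Nx + w ≤ x := by
    have : (1 : ℤ) * Nx ≤ d * Nx := mul_le_mul_of_nonneg_right (by exact_mod_cast hd) (Nat.cast_nonneg _)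
    linarith
  have step : ∀ g ∈ S, ∀ g' ∈ S, ∀ Q : ℤ, (f g' (c g')).1 = (f g (c g)).1 * Q →
      (f g (c g)).1 * Nx + (f g (c g)).2 ≤ x →
      (x : ℝ) / (Real.log x) ^ B ≤ (cnt ((f g' (c g')).2 - Q * (f g (c g)).2) Q x : ℝ) := by
    intro g hg g' hg' Q hQ hle
    refine hsc1.trans ((hcl g hg g' hg').trans ?_)
    exact_mod_cast cnt_ge (hpos g (c g)).1 hQ (F := {f g (c g), f g' (c g')}) (by simp) (by simp) hle
  obtain ⟨a, b, i, hi, j, hj, hbad⟩ := hU (fun a => univ.filter (fun i => (false, a, i) ∈ S))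
    (fun a => univ.filter (fun i => (true, a, i) ∈ S))
    (by
      rw [Finset.disjoint_left]
      intro i hi hi'
      have h1 := (mem_filter.1 hi).2
      have h3 := (mem_filter.1 hi').2
      have h4 := step _ h1 _ h3 1 (by rw [hf1, hf1, one_mul]) (by
        have := hw (false, false, i) (c (false, false, i))
        rw [hf1] at this ⊢
        simp only at this ⊢
        linarith)
      rw [hf1, hf1] at h4
      simp only at h4
      have e : l0 + N * X true i (c (false, true, i)) - 1 * (l0 + N * X false i (c (false, false, i))) =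
        N * (X true i (c (false, true, i)) - X false i (c (false, false, i))) := by ring
      rw [e] at h4
      exact absurd h4 (not_le.2 (hx1 _ _ _)))
    (by
      rw [Finset.disjoint_left]
      intro i hi hi'
      have h1 := (mem_filter.1 hi).2
      have h3 := (mem_filter.1 hi').2
      have h4 := step _ h1 _ h3 1 (by rw [hf2, hf2, mul_one]) (by
        have := hw (true, false, i) (c (true, false, i))
        rw [hf2] at this ⊢
        simp only at this ⊢
        linarith)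
      rw [hf2, hf2] at h4
      simp only at h4
      have e : r0 + N * Z true i (c (true, true, i)) - 1 * (r0 + N * Z false i (c (true, false, i))) =
        N * (Z true i (c (true, true, i)) - Z false i (c (true, false, i))) := by ring
      rw [e] at h4
      exact absurd h4 (not_le.2 (hx2 _ _ _)))
    (by
      refine hS.trans (le_of_eq ?_)
      congr 1
      have h1 : S.card = ∑ g : Bool × Bool × Fin n, if g ∈ S then 1 else 0 := by
        rw [← card_filter]
        congr 1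
        ext g
        simp
      rw [h1, Fintype.sum_prod_type]
      simp only [Fintype.sum_prod_type, Fintype.sum_bool, card_filter]
      ring)
  have h1 := (mem_filter.1 hi).2
  have h3 := (mem_filter.1 hj).2
  have h4 := step _ h1 _ h3 d (by rw [hf1, hf2, one_mul]) (by
    have := hw (false, a, i) (c (false, a, i))
    rw [hf1] at this ⊢
    simp only at this ⊢
    linarith)
  rw [hf1, hf2] at h4
  simp only at h4
  have e : r0 + N * Z b j (c (true, b, j)) - d * (l0 + N * X a i (c (false, a, i))) =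
      α + N * (Z b j (c (true, b, j)) - d * X a i (c (false, a, i))) := by
    rw [hr0]; ring
  rw [e] at h4
  exact absurd h4 (not_le.2 (hx3 _ _ _ _ _ _ (hbad _ _)))

end Pool.Agent.N679.SD
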