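import Pool.Agent.N679.SD.Stm
import Pool.Agent.W142.TF.All
import Pool.Agent.W824.HF.Rob
import Pool.Agent.W333.HF.POL

set_option autoImplicit false
open Filter Topology Finset
open scoped BoundedContinuousFunction

/-! Project SD: an inequality of Kneser type for sets of integers. -/

namespace Pool.Agent.N679.SD

open Pool.Agent.W634.BQ Pool.Agent.W505.BQ Pool.Agent.W27.FB Pool.Agent.W142.TF
open Pool.Agent.W880.TF (cls_sp cls_per m_cls_sh sum_apply')

namespace KNaux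

variable {m : (ℤ →ᵇ ℝ) →ₗ[ℝ] ℝ}

theorem mul_app (f g : ℤ →ᵇ ℝ) (n : ℤ) : (f * g) n = f n * g n := by
  rw [BoundedContinuousFunction.coe_mul, Pi.mul_apply]

theorem sub_app (f g : ℤ →ᵇ ℝ) (n : ℤ) : (f - g) n = f n - g n := by
  rw [BoundedContinuousFunction.coe_sub, Pi.sub_apply]

theorem cs (hm : IsMean m) (f g : ℤ →ᵇ ℝ) : m (f * g) ^ 2 ≤ m (f * f) * m (g * g) := by
  have h : ∀ x : ℝ, 0 ≤ m (g * g) * (x * x) + (-(2 * m (f * g))) * x + m (f * f) := by
    intro x
    have h1 := hm.pos ((f - x • g) * (f - x • g)) (fun n => by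
      rw [mul_app]; exact mul_self_nonneg _)
    have e : (f - x • g) * (f - x • g) = f * f - (2 * x) • (f * g) + (x * x) • (g * g) := by
      ext n
      simp only [BoundedContinuousFunction.coe_mul, BoundedContinuousFunction.coe_sub,
        BoundedContinuousFunction.coe_add, BoundedContinuousFunction.coe_smul, Pi.mul_apply,
        Pi.sub_apply, Pi.add_apply, smul_eq_mul]
      ring
    rw [e, map_add, map_sub, map_smul, map_smul, smul_eq_mul, smul_eq_mul] at h1
    linarith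
  have := discrim_le_zero h
  unfold discrim at this
  nlinarith

theorem abs_m_le (hm : IsMean m) {f : ℤ →ᵇ ℝ} (hf : ∀ n, |f n| ≤ 1) : |m f| ≤ 1 := by
  rw [abs_le]
  constructor
  · have h := m_mono hm (f := -1) (g := f) (fun n => by
      show -(1 : ℝ) ≤ f n
      exact (abs_le.1 (hf n)).1)
    rw [map_neg, hm.one] at h
    exact h
  · have h := m_mono hm (f := f) (g := 1) (fun n => by
      show f n ≤ (1 : ℝ)
      exact (abs_le.1 (hf n)).2)
    rw [hm.one] at h
    exact h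

/-- counting -/
theorem cnt {N : Set ℤ} (hN : Null N) (c : ℕ) (hc : 1 ≤ c) {e : ℝ} (he : 0 < e) :
    ∃ L0 : ℕ, ∀ H : ℕ, L0 ≤ H → ∀ (j : ℤ) (S : Finset ℕ), S ⊆ range H →
      (∀ i ∈ S, (c : ℤ) * ((i : ℤ) - j) ∈ N) → (S.card : ℝ) ≤ e * H := by
  have hc0 : (0 : ℝ) < c := by exact_mod_cast hc
  obtain ⟨L0, hL0⟩ := hN (e / c) (by positivity)
  refine ⟨L0, fun H hH j S hS hSN => ?_⟩
  have h1 := hL0 (c * H) (le_trans hH (Nat.le_mul_of_pos_left H hc)) (-(c : ℤ) * j)
  have hfin : {n : ℕ | n < c * H ∧ -(c : ℤ) * j + (n : ℤ) ∈ N}.Finite :=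
    (Set.finite_lt_nat (c * H)).subset (fun n hn => hn.1)
  have h2 : (S : Set ℕ).ncard ≤ {n : ℕ | n < c * H ∧ -(c : ℤ) * j + (n : ℤ) ∈ N}.ncard := by
    refine Set.ncard_le_ncard_of_injOn (fun i => c * i) ?_ ?_ hfin
    · intro i hi
      have hi' : i ∈ S := hi
      refine ⟨Nat.mul_lt_mul_of_pos_left (mem_range.1 (hS hi')) hc, ?_⟩
      have h3 := hSN i hi'
      have e3 : -(c : ℤ) * j + ((c * i : ℕ) : ℤ) = (c : ℤ) * ((i : ℤ) - j) := by
        push_cast
        ring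
      rw [e3]
      exact h3
    · intro a _ b _ h
      exact Nat.eq_of_mul_eq_mul_left hc h
  rw [Set.ncard_coe_finset] at h2
  have h3 : (S.card : ℝ) ≤ ({n : ℕ | n < c * H ∧ -(c : ℤ) * j + (n : ℤ) ∈ N}.ncard : ℝ) := by
    exact_mod_cast h2
  refine h3.trans (h1.trans (le_of_eq ?_))
  push_cast
  field_simp

/-- variance -/
theorem var (hm : IsMean m) {f : ℤ →ᵇ ℝ} (hf : ∀ n, |f n| ≤ 1) {e : ℝ} (he : 0 ≤ e) {H : ℕ}
    {A : Finset ℕ} (hA : A ⊆ range H) (c s : ℤ)
    (hN : ∀ (j : ℤ) (S : Finset ℕ), S ⊆ range H →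
      (∀ i ∈ S, c * ((i : ℤ) - j) ∈ {a : ℤ | e < |m (f * sh a f)|}) → (S.card : ℝ) ≤ e * H) :
    m ((∑ i ∈ A, sh (-(c * i) + s) f) * ∑ i ∈ A, sh (-(c * i) + s) f) ≤ 2 * e * (H : ℝ) ^ 2 := by
  classical
  have hAc : (A.card : ℝ) ≤ H := by
    have := card_le_card hA
    rw [card_range] at this
    exact_mod_cast this
  rw [sum_mul_sum, map_sum]
  have h1 : ∀ i ∈ A, m (∑ j ∈ A, sh (-(c * i) + s) f * sh (-(c * j) + s) f) ≤ 2 * e * H := by
    intro i _
    rw [map_sum]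
    have h2 : ∀ j ∈ A, m (sh (-(c * i) + s) f * sh (-(c * j) + s) f) =
        m (f * sh (c * ((j : ℤ) - i)) f) := by
      intro j _
      have e1 : sh (-(c * i) + s) f * sh (-(c * j) + s) f =
          sh (-(c * j) + s) (f * sh (c * ((j : ℤ) - i)) f) := by
        ext n
        rw [mul_app, sh_apply, sh_apply, sh_apply, mul_app, sh_apply, mul_comm]
        congr 2
        ring
      rw [e1, m_sh hm]
    rw [sum_congr rfl h2, ← sum_filter_add_sum_filter_not A
      (fun j : ℕ => e < |m (f * sh (c * ((j : ℤ) - i)) f)|)]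
    have h3 : ∑ j ∈ A.filter (fun j : ℕ => e < |m (f * sh (c * ((j : ℤ) - i)) f)|),
        m (f * sh (c * ((j : ℤ) - i)) f) ≤ e * H := by
      have h4 := hN (i : ℤ) (A.filter (fun j : ℕ => e < |m (f * sh (c * ((j : ℤ) - i)) f)|))
        ((filter_subset _ _).trans hA) (fun j hj => (mem_filter.1 hj).2)
      refine le_trans ?_ h4
      have h5 := sum_le_card_nsmul (A.filter (fun j : ℕ => e < |m (f * sh (c * ((j : ℤ) - i)) f)|))
        (fun j : ℕ => m (f * sh (c * ((j : ℤ) - i)) f)) 1 (fun j _ =>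
          (le_abs_self _).trans (abs_m_le hm (fun n => by
            rw [mul_app, sh_apply, abs_mul]
            exact mul_le_one₀ (hf _) (abs_nonneg _) (hf _))))
      rw [nsmul_eq_mul, mul_one] at h5
      exact h5
    have h6 : ∑ j ∈ A.filter (fun j : ℕ => ¬ e < |m (f * sh (c * ((j : ℤ) - i)) f)|),
        m (f * sh (c * ((j : ℤ) - i)) f) ≤ e * H := by
      have h5 := sum_le_card_nsmul (A.filter (fun j : ℕ => ¬ e < |m (f * sh (c * ((j : ℤ) - i)) f)|))
        (fun j : ℕ => m (f * sh (c * ((j : ℤ) - i)) f)) e (fun j hj =>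
          (le_abs_self _).trans (not_lt.1 (mem_filter.1 hj).2))
      rw [nsmul_eq_mul] at h5
      refine h5.trans ?_
      have h7 : ((A.filter (fun j : ℕ => ¬ e < |m (f * sh (c * ((j : ℤ) - i)) f)|)).card : ℝ) ≤ H :=
        le_trans (by exact_mod_cast card_le_card (filter_subset _ _)) hAc
      rw [mul_comm]
      exact mul_le_mul_of_nonneg_left h7 he
    linarith
  refine (sum_le_card_nsmul A _ _ h1).trans ?_
  rw [nsmul_eq_mul]
  have : 0 ≤ 2 * e * (H : ℝ) := by positivity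
  calc (A.card : ℝ) * (2 * e * H) ≤ H * (2 * e * H) := mul_le_mul_of_nonneg_right hAc this
    _ = _ := by ring

/-- the sums over the almost periodic part -/
theorem step3 (hm : IsMean m) {q : ℕ} (hq : 1 ≤ q) (r : ℤ) (B U : Set ℤ) {P P' : ℤ →ᵇ ℝ}
    {e τ : ℝ} (hτ : 0 ≤ τ) {H : ℕ} {A : Finset ℕ} (hA : A ⊆ range H) (c : ℤ → ℤ)
    (hqc : ∀ i, (q : ℤ) ∣ c i)
    (h1 : (q : ℝ) * ∑ i ∈ A, m (cls q r * ind B * sh (c i) (ind U)) ≤ τ * H)
    (h2 : m ((∑ i ∈ A, sh (c i) (ind U - P')) * ∑ i ∈ A, sh (c i) (ind U - P')) ≤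
      2 * e * (H : ℝ) ^ 2) (he : 2 * e * q ≤ τ ^ 2)
    (h3 : m (cls q r * ((P' - P) * (P' - P))) ≤ τ ^ 2 / q) :
    (q : ℝ) * ∑ i ∈ A, m (cls q r * ind B * sh (c i) P) ≤ 3 * τ * H := by
  have hq0 : (0 : ℝ) < q := by exact_mod_cast hq
  set g := cls q r * ind B with hg
  have hg01 : ∀ n, 0 ≤ g n ∧ g n ≤ 1 := by
    intro n
    rw [hg, mul_app]
    exact mul01 (ind01 _ _) (ind01 _ _)
  have hgc : ∀ n, g n ≤ cls q r n := by
    intro n
    rw [hg, mul_app]
    exact mul_le_of_le_one_right (ind01 _ _).1 (ind01 _ _).2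
  have hmc : m (cls q r) = 1 / q := Pool.Agent.W681.TF.m_cls hm q r hq
  have hgg : m (g * g) ≤ 1 / q := by
    rw [← hmc]
    refine m_mono hm fun n => ?_
    rw [mul_app]
    have h := hg01 n
    have := hgc n
    nlinarith [h.1, h.2]
  have hgg0 : 0 ≤ m (g * g) := hm.pos _ fun n => by rw [mul_app]; exact mul_self_nonneg _
  have hAc : (A.card : ℝ) ≤ H := by
    have := card_le_card hA
    rw [card_range] at this
    exact_mod_cast this
  -- the first error
  have k1 : |∑ i ∈ A, m (g * sh (c i) (ind U - P'))| ≤ τ * H / q := by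
    rw [← map_sum, ← mul_sum]
    apply abs_le_of_sq_le_sq _ (by positivity)
    refine (cs hm _ _).trans ?_
    have h4 : 0 ≤ m ((∑ i ∈ A, sh (c i) (ind U - P')) * ∑ i ∈ A, sh (c i) (ind U - P')) :=
      hm.pos _ fun n => by rw [mul_app]; exact mul_self_nonneg _
    calc _ ≤ (1 / (q : ℝ)) * (2 * e * (H : ℝ) ^ 2) := mul_le_mul hgg h2 h4 (by positivity)
      _ = (2 * e * q) * (H / q) ^ 2 := by field_simp
      _ ≤ τ ^ 2 * (H / q) ^ 2 := mul_le_mul_of_nonneg_right he (by positivity)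
      _ = _ := by ring
  -- the second error
  have k2 : ∀ i : ℕ, |m (g * sh (c i) (P' - P))| ≤ τ / q := by
    intro i
    have e1 : g * sh (c i) (P' - P) = g * (cls q r * sh (c i) (P' - P)) := by
      ext n
      simp only [mul_app, hg]
      rcases cls_sp q r n with h | h
      · rw [h.1]; ring
      · rw [h.1]; ring
    rw [e1]
    apply abs_le_of_sq_le_sq _ (by positivity)
    refine (cs hm _ _).trans ?_
    have e2 : (cls q r * sh (c i) (P' - P)) * (cls q r * sh (c i) (P' - P)) =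
        cls q r * sh (c i) ((P' - P) * (P' - P)) := by
      ext n
      simp only [mul_app, sh_apply]
      rcases cls_sp q r n with h | h
      · rw [h.1]; ring
      · rw [h.1]; ring
    rw [e2, m_cls_sh hm (hqc i)]
    have h4 : 0 ≤ m (cls q r * ((P' - P) * (P' - P))) := hm.pos _ fun n => by
      rw [mul_app, mul_app]
      exact mul_nonneg (ind01 _ _).1 (mul_self_nonneg _)
    calc _ ≤ (1 / (q : ℝ)) * (τ ^ 2 / q) := mul_le_mul hgg h3 h4 (by positivity)
      _ = _ := by ring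
  have e3 : ∀ i ∈ A, m (g * sh (c i) P) = m (g * sh (c i) (ind U)) -
      m (g * sh (c i) (ind U - P')) - m (g * sh (c i) (P' - P)) := by
    intro i _
    rw [← map_sub, ← map_sub]
    congr 1
    ext n
    simp only [BoundedContinuousFunction.coe_mul, BoundedContinuousFunction.coe_sub,
      Pi.mul_apply, Pi.sub_apply, sh_apply]
    ring
  rw [sum_congr rfl e3, sum_sub_distrib, sum_sub_distrib]
  have k3 : |∑ i ∈ A, m (g * sh (c i) (P' - P))| ≤ H * (τ / q) := by
    refine (abs_sum_le_sum_abs _ _).trans ((sum_le_card_nsmul A _ _ fun i _ => k2 i).trans ?_)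
    rw [nsmul_eq_mul]
    exact mul_le_mul_of_nonneg_right hAc (by positivity)
  have k1' := mul_le_mul_of_nonneg_left (neg_le_of_abs_le k1) hq0.le
  have k3' := mul_le_mul_of_nonneg_left (neg_le_of_abs_le k3) hq0.le
  have e4 : (q : ℝ) * -(τ * H / q) = -(τ * H) := by field_simp
  have e5 : (q : ℝ) * -(H * (τ / q)) = -(τ * H) := by field_simp
  rw [e4] at k1'
  rw [e5] at k3'
  rw [mul_sub, mul_sub]
  linarith

/-- averaging over the starting points of progressions -/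
theorem fin_avg {H p t : ℕ} {A : Finset ℕ} (hA : A ⊆ range H) (μ : ℕ → ℝ) (hμ : ∀ i, 0 ≤ μ i)
    {η lam : ℝ} (hH : 1 ≤ H) (hp : 1 ≤ p) (hlam : 0 ≤ lam) (hη : 0 < η)
    (ht : (t : ℝ) * p ≤ η * H) (hM : lam * ∑ i ∈ A, μ i ≤ η * H) :
    ∃ i0 < H, ((A.card : ℝ) / H - 3 * η) * p ≤
      (((range p).filter (fun z => i0 + t * z ∈ A)).card : ℝ) -
        lam * ∑ z ∈ (range p).filter (fun z => i0 + t * z ∈ A), μ (i0 + t * z) := by
  classical
  have hH0 : (0 : ℝ) < H := by exact_mod_cast hH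
  have hp0 : (0 : ℝ) < p := by exact_mod_cast hp
  by_contra hc
  push Not at hc
  have h1 : ∑ i0 ∈ range H, ((((range p).filter (fun z => i0 + t * z ∈ A)).card : ℝ) -
        lam * ∑ z ∈ (range p).filter (fun z => i0 + t * z ∈ A), μ (i0 + t * z)) ≤
      ∑ _i0 ∈ range H, ((A.card : ℝ) / H - 3 * η) * p :=
    sum_le_sum fun i0 hi0 => (hc i0 (mem_range.1 hi0)).le
  rw [sum_const, card_range, nsmul_eq_mul] at h1
  have e1 : ∀ i0 ∈ range H, ((((range p).filter (fun z => i0 + t * z ∈ A)).card : ℝ) -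
        lam * ∑ z ∈ (range p).filter (fun z => i0 + t * z ∈ A), μ (i0 + t * z)) =
      ∑ z ∈ range p, (if i0 + t * z ∈ A then (1 - lam * μ (i0 + t * z)) else 0) := by
    intro i0 _
    rw [← sum_filter, sum_sub_distrib, ← mul_sum, sum_const, nsmul_eq_mul, mul_one]
  rw [sum_congr rfl e1, sum_comm] at h1
  have h2 : ∀ z ∈ range p, (A.card : ℝ) - t * p - lam * ∑ i ∈ A, μ i ≤
      ∑ i0 ∈ range H, (if i0 + t * z ∈ A then (1 - lam * μ (i0 + t * z)) else 0) := by
    intro z hz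
    rw [← sum_filter, sum_sub_distrib, ← mul_sum, sum_const, nsmul_eq_mul, mul_one]
    have h3 : (A.card : ℝ) ≤ (((range H).filter (fun i0 => i0 + t * z ∈ A)).card : ℝ) + t * p := by
      have h4 : A ⊆ ((range H).filter (fun i0 => i0 + t * z ∈ A)).image (fun i0 => i0 + t * z) ∪
          range (t * z) := by
        intro a ha
        rw [mem_union, mem_image, mem_range]
        by_cases h : a < t * z
        · exact Or.inr h
        · left
          push Not at h
          refine ⟨a - t * z, ?_, by omega⟩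
          rw [mem_filter, mem_range]
          have := mem_range.1 (hA ha)
          refine ⟨by omega, ?_⟩
          rw [Nat.sub_add_cancel h]
          exact ha
      have h5 := (card_le_card h4).trans (card_union_le _ _)
      rw [card_range] at h5
      have h6 : (((range H).filter (fun i0 => i0 + t * z ∈ A)).image (fun i0 => i0 + t * z)).card ≤
          ((range H).filter (fun i0 => i0 + t * z ∈ A)).card := card_image_le
      have h7 : t * z ≤ t * p := Nat.mul_le_mul_left t (mem_range.1 hz).le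
      have h8 : A.card ≤ ((range H).filter (fun i0 => i0 + t * z ∈ A)).card + t * p := by omega
      exact_mod_cast h8
    have h9 : ∑ i0 ∈ (range H).filter (fun i0 => i0 + t * z ∈ A), μ (i0 + t * z) ≤
        ∑ i ∈ A, μ i := by
      rw [← sum_image (f := μ) (g := fun i0 => i0 + t * z) (fun a _ b _ h => by
        simpa using h)]
      refine sum_le_sum_of_subset_of_nonneg ?_ (fun i _ _ => hμ i)
      intro a ha
      rw [mem_image] at ha
      obtain ⟨b, hb, rfl⟩ := ha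
      exact (mem_filter.1 hb).2
    have h10 := mul_le_mul_of_nonneg_left h9 hlam
    linarith
  have h11 := sum_le_sum h2
  rw [sum_const, card_range, nsmul_eq_mul] at h11
  have h12 : (H : ℝ) * (((A.card : ℝ) / H - 3 * η) * p) = p * (A.card - 3 * η * H) := by
    field_simp
  rw [h12] at h1
  have h13 : (p : ℝ) * (A.card - 2 * (η * H)) ≤ p * ((A.card : ℝ) - t * p - lam * ∑ i ∈ A, μ i) :=
    mul_le_mul_of_nonneg_left (by linarith) hp0.le
  have h14 : 0 < p * (η * H) := by positivity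
  nlinarith

/-- a good point of a residue class -/
theorem choose_y (hm : IsMean m) {q : ℕ} (hq : 1 ≤ q) (r : ℤ) (F : ℤ →ᵇ ℝ)
    (hF : ∀ y, ¬ (q : ℤ) ∣ y - r → F y = 0) {c : ℝ} (hc : c < q * m F) :
    ∃ y : ℤ, (q : ℤ) ∣ y - r ∧ c < F y := by
  have hq0 : (0 : ℝ) < q := by exact_mod_cast hq
  by_contra h
  push Not at h
  have h1 : m F ≤ m (c • cls q r) := by
    refine m_mono hm fun y => ?_
    show F y ≤ c * cls q r y
    rcases cls_sp q r y with h2 | h2
    · rw [h2.1, mul_one]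
      exact h y h2.2
    · rw [h2.1, mul_zero, hF y h2.2]
  rw [map_smul, smul_eq_mul, Pool.Agent.W681.TF.m_cls hm q r hq] at h1
  have h2 := mul_le_mul_of_nonneg_left h1 hq0.le
  have e : (q : ℝ) * (c * (1 / q)) = c := by field_simp
  rw [e] at h2
  linarith

/-- the class sums are large -/
theorem lemA (hm : IsMean m) {P : ℤ →ᵇ ℝ} {q p : ℕ} {r K : ℤ}
    {η c : ℝ} (hq : 1 ≤ q) (hqK : (q : ℤ) ∣ K)
    (hper : ∀ x y : ℤ, (q : ℤ) ∣ x - y →
      |∑ z ∈ range p, P (x + K * z) - ∑ z ∈ range p, P (y + K * z)| ≤ η * p)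
    (hlow : c / q ≤ m (cls q r * P)) {x : ℤ} (hx : (q : ℤ) ∣ x - r) :
    (c - η) * p ≤ ∑ z ∈ range p, P (x + K * z) := by
  have hq0 : (0 : ℝ) < q := by exact_mod_cast hq
  have e1 : m (cls q r * ∑ z ∈ range p, sh (K * z) P) = p * m (cls q r * P) := by
    rw [mul_sum, map_sum]
    have : ∀ z ∈ range p, m (cls q r * sh (K * z) P) = m (cls q r * P) := fun z _ =>
      m_cls_sh hm (Dvd.dvd.mul_right hqK _) P
    rw [sum_congr rfl this, sum_const, card_range, nsmul_eq_mul]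
  have e2 : m (cls q r * ∑ z ∈ range p, sh (K * z) P) ≤
      m ((∑ z ∈ range p, P (x + K * z) + η * p) • cls q r) := by
    refine m_mono hm fun t => ?_
    rw [BoundedContinuousFunction.coe_mul, Pi.mul_apply, sum_apply']
    show _ ≤ (∑ z ∈ range p, P (x + K * z) + η * p) * cls q r t
    rcases cls_sp q r t with ⟨h1, h2⟩ | ⟨h1, h2⟩
    · rw [h1, one_mul, mul_one]
      have h3 : (q : ℤ) ∣ t - x := by
        have : t - x = (t - r) - (x - r) := by ring
        rw [this]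
        exact dvd_sub h2 hx
      have h4 := (abs_le.1 (hper t x h3)).2
      have h5 : ∑ z ∈ range p, (sh (K * z) P) t = ∑ z ∈ range p, P (t + K * z) :=
        sum_congr rfl fun z _ => sh_apply _ _ _
      rw [h5]
      linarith
    · rw [h1, zero_mul, mul_zero]
  rw [e1, map_smul, smul_eq_mul, Pool.Agent.W681.TF.m_cls hm q r hq] at e2
  have e3 : p * (c / q) ≤ (∑ z ∈ range p, P (x + K * z) + η * p) * (1 / q) :=
    (mul_le_mul_of_nonneg_left hlow (Nat.cast_nonneg p)).trans e2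
  rw [mul_div_assoc', mul_one_div, div_le_div_iff_of_pos_right hq0] at e3
  linarith

/-- the combinatorial part modulo `p` -/
theorem comb (hrob : S_rob) {p : ℕ} (hp : p.Prime) {η ρ : ℝ} (hη : 0 < η) (hη1 : η ≤ 1 / 100)
    (hρ : 100 * η < ρ) (hpη : 1 ≤ η * p) {A B : Finset ℕ} (hA : A ⊆ range p) (hB : B ⊆ range p)
    (Q : ℤ → ℝ) (hQ0 : ∀ v, 0 ≤ Q v) (hQ1 : ∀ v, Q v ≤ 1) (hper : ∀ v, |Q (v + p) - Q v| ≤ η)
    (hsum : (ρ - 3 * η) * p ≤ ∑ v ∈ range p, Q v)
    (hΦ : ∑ z ∈ A, ∑ w ∈ B, Q ((w : ℤ) - z) ≤ η ^ 4 * p ^ 2) :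
    (A.card : ℝ) ≤ η * p ∨ (B.card : ℝ) < η * p + 1 ∨
      (A.card : ℝ) + B.card ≤ (1 - ρ + 9 * η) * p := by
  classical
  have : NeZero p := ⟨hp.ne_zero⟩
  have hp0 : (0 : ℝ) < p := by exact_mod_cast hp.pos
  obtain ⟨R, hR⟩ : ∃ R : Finset (ZMod p), R = univ.filter (fun v : ZMod p => Q (v.val : ℤ) ≤ 2 * η) :=
    ⟨_, rfl⟩
  have hRc : (R.card : ℝ) ≤ (1 - ρ + 5 * η) * p := by
    have e1 : ∑ v ∈ range p, Q (v : ℤ) = ∑ v : ZMod p, Q (v.val : ℤ) := by
      symm
      apply Finset.sum_nbij (fun v : ZMod p => v.val)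
      · intro v _
        exact mem_range.2 (ZMod.val_lt v)
      · intro a _ b _ h
        exact ZMod.val_injective p h
      · intro v hv
        exact ⟨(v : ZMod p), by simp, ZMod.val_natCast_of_lt (mem_range.1 hv)⟩
      · intro v _
        rfl
    have e2 : ∑ v : ZMod p, Q (v.val : ℤ) ≤
        ∑ v : ZMod p, (1 - (if v ∈ R then (1 - 2 * η) else 0)) := by
      refine sum_le_sum fun v _ => ?_
      split_ifs with h
      · rw [hR, mem_filter] at h
        linarith [h.2]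
      · linarith [hQ1 (v.val : ℤ)]
    rw [sum_sub_distrib, sum_const, card_univ, ZMod.card, nsmul_eq_mul, mul_one,
      Finset.sum_ite_mem, univ_inter, sum_const, nsmul_eq_mul] at e2
    have e3 : (R.card : ℝ) ≤ p := by
      have := card_le_univ R
      rw [ZMod.card] at this
      exact_mod_cast this
    have e4 := mul_le_mul_of_nonneg_left e3 hη.le
    nlinarith
  obtain ⟨bad, hbad⟩ : ∃ bad : ℕ → Finset ℕ, ∀ z, bad z =
      B.filter (fun w : ℕ => ((w : ZMod p) - (z : ZMod p)) ∉ R) := ⟨_, fun _ => rfl⟩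
  have hbad1 : ∀ z ∈ A, ∀ w ∈ bad z, η ≤ Q ((w : ℤ) - z) := by
    intro z hz w hw
    rw [hbad, mem_filter] at hw
    have hz' := mem_range.1 (hA hz)
    have hw' := mem_range.1 (hB hw.1)
    have h2 := hw.2
    rw [hR, mem_filter] at h2
    have h3 : 2 * η < Q ((((w : ZMod p) - (z : ZMod p)).val : ℕ) : ℤ) := by
      by_contra hc
      exact h2 ⟨mem_univ _, not_lt.1 hc⟩
    by_cases h : z ≤ w
    · have e1 : (w : ZMod p) - (z : ZMod p) = ((w - z : ℕ) : ZMod p) := by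
        rw [Nat.cast_sub h]
      rw [e1, ZMod.val_natCast_of_lt (by omega), Nat.cast_sub h] at h3
      linarith
    · have e1 : (w : ZMod p) - (z : ZMod p) = ((w + p - z : ℕ) : ZMod p) := by
        rw [Nat.cast_sub (by omega), Nat.cast_add, ZMod.natCast_self, add_zero]
      rw [e1, ZMod.val_natCast_of_lt (by omega), Nat.cast_sub (by omega), Nat.cast_add] at h3
      have h4 := (abs_le.1 (hper ((w : ℤ) - z))).2
      have e2 : (w : ℤ) + p - z = (w : ℤ) - z + p := by ring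
      rw [e2] at h3
      linarith
  have hcount : η * ∑ z ∈ A, ((bad z).card : ℝ) ≤ η ^ 4 * p ^ 2 := by
    refine le_trans ?_ hΦ
    rw [mul_sum]
    refine sum_le_sum fun z hz => ?_
    have h1 : ∑ w ∈ bad z, Q ((w : ℤ) - z) ≤ ∑ w ∈ B, Q ((w : ℤ) - z) := by
      refine sum_le_sum_of_subset_of_nonneg ?_ (fun _ _ _ => hQ0 _)
      rw [hbad]
      exact filter_subset _ _
    have h2 := card_nsmul_le_sum (bad z) (fun w : ℕ => Q ((w : ℤ) - z)) η (hbad1 z hz)
    rw [nsmul_eq_mul, mul_comm] at h2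
    exact h2.trans h1
  obtain ⟨A2, hA2⟩ : ∃ A2 : Finset ℕ, A2 = A.filter (fun z => ((bad z).card : ℝ) ≤ η ^ 2 * p) :=
    ⟨_, rfl⟩
  have hA2c : (A.card : ℝ) ≤ A2.card + η * p := by
    have h1 := Finset.card_filter_add_card_filter_not (s := A)
      (fun z => ((bad z).card : ℝ) ≤ η ^ 2 * p)
    rw [← hA2] at h1
    have h2 : (((A.filter (fun z => ¬ ((bad z).card : ℝ) ≤ η ^ 2 * p)).card : ℕ) : ℝ) ≤ η * p := by
      have h3 := card_nsmul_le_sum (A.filter (fun z => ¬ ((bad z).card : ℝ) ≤ η ^ 2 * p))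
        (fun z => ((bad z).card : ℝ)) (η ^ 2 * p) (fun z hz => (not_le.1 (mem_filter.1 hz).2).le)
      rw [nsmul_eq_mul] at h3
      have h4 : ∑ z ∈ A.filter (fun z => ¬ ((bad z).card : ℝ) ≤ η ^ 2 * p), ((bad z).card : ℝ) ≤
          ∑ z ∈ A, ((bad z).card : ℝ) :=
        sum_le_sum_of_subset_of_nonneg (filter_subset _ _) (fun _ _ _ => Nat.cast_nonneg _)
      have h5 := mul_le_mul_of_nonneg_left (h3.trans h4) hη.le
      have h6 := h5.trans hcount
      have h7 : 0 < η ^ 3 * p := by positivity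
      have h8 : (η ^ 3 * p) * (((A.filter (fun z => ¬ ((bad z).card : ℝ) ≤ η ^ 2 * p)).card : ℕ) : ℝ)
          ≤ (η ^ 3 * p) * (η * p) := by
        calc _ = η * ((((A.filter (fun z => ¬ ((bad z).card : ℝ) ≤ η ^ 2 * p)).card : ℕ) : ℝ) *
            (η ^ 2 * p)) := by ring
          _ ≤ _ := h6
          _ = _ := by ring
      exact le_of_mul_le_mul_left h8 h7
    have h3 : (A.card : ℝ) = A2.card +
        (((A.filter (fun z => ¬ ((bad z).card : ℝ) ≤ η ^ 2 * p)).card : ℕ) : ℝ) := by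
      exact_mod_cast h1.symm
    linarith
  rcases A2.eq_empty_or_nonempty with hE | hE
  · left
    rw [hE, card_empty, Nat.cast_zero, zero_add] at hA2c
    exact hA2c
  right
  by_cases hBc : (B.card : ℝ) < η * p + 1
  · exact Or.inl hBc
  right
  push Not at hBc
  have inj : ∀ S : Finset ℕ, S ⊆ range p → Set.InjOn (fun z : ℕ => (z : ZMod p)) (S : Set ℕ) := by
    intro S hS a ha b hb h
    have h1 := congrArg ZMod.val h
    simp only at h1
    rwa [ZMod.val_natCast_of_lt (mem_range.1 (hS ha)),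
      ZMod.val_natCast_of_lt (mem_range.1 (hS hb))] at h1
  have hA2s : A2 ⊆ range p := by
    rw [hA2]
    exact (filter_subset _ _).trans hA
  have c1 : (A2.image (fun z : ℕ => (z : ZMod p))).card = A2.card :=
    card_image_of_injOn (inj A2 hA2s)
  have c2 : (B.image (fun z : ℕ => (z : ZMod p))).card = B.card := card_image_of_injOn (inj B hB)
  have c3 : (R.image (fun v : ZMod p => -v)).card ≤ R.card := card_image_le
  have key := hrob p hp (A2.image (fun z : ℕ => (z : ZMod p)))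
    (B.image (fun z : ℕ => (z : ZMod p))) (R.image (fun v : ZMod p => -v)) η hη (by linarith)
    (hE.image _) (by rw [c2]; exact hBc) (by
      intro a ha
      rw [mem_image] at ha
      obtain ⟨z, hz, rfl⟩ := ha
      rw [hA2, mem_filter] at hz
      refine le_trans ?_ hz.2
      rw [Finset.filter_image]
      have h1 : (B.filter (fun w : ℕ => (z : ZMod p) - (w : ZMod p) ∉
          R.image (fun v : ZMod p => -v))) ⊆ bad z := by
        intro w hw
        rw [mem_filter] at hw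
        rw [hbad, mem_filter]
        refine ⟨hw.1, fun h => hw.2 ?_⟩
        rw [mem_image]
        exact ⟨_, h, by ring⟩
      exact_mod_cast card_image_le.trans (card_le_card h1))
  rw [c1, c2] at key
  have c3' : (((R.image (fun v : ZMod p => -v)).card : ℕ) : ℝ) ≤ R.card := by exact_mod_cast c3
  rcases min_choice p (A2.card + B.card) with hmin | hmin
  · exfalso
    rw [hmin] at key
    nlinarith
  · rw [hmin, Nat.cast_add] at key
    nlinarith

end KNaux

open KNaux in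
theorem s_kn : S_KN := by
  classical
  intro ρ ε hε hερ hρ1
  obtain ⟨η, hη⟩ : ∃ η : ℝ, η = ε / 100 := ⟨_, rfl⟩
  have hη0 : 0 < η := by rw [hη]; positivity
  have hη1 : η ≤ 1 / 100 := by rw [hη]; linarith
  have hηρ : 100 * η < ρ := by rw [hη]; linarith
  obtain ⟨τ, hτ⟩ : ∃ τ : ℝ, τ = η ^ 6 / 12 := ⟨_, rfl⟩
  have hτ0 : 0 < τ := by rw [hτ]; positivity
  have hτ1 : τ ≤ 1 := by
    rw [hτ]
    have : η ^ 6 ≤ 1 := pow_le_one₀ hη0.le (by linarith)
    linarith
  refine ⟨τ, hτ0, fun D hD U hU => ?_⟩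
  obtain ⟨m, hm, hE, hmU⟩ := Pool.Agent.W756.TF.ban U ρ hU
  refine ⟨m, hm, ?_⟩
  -- the coarse approximation
  obtain ⟨κ, hκ⟩ : ∃ κ : ℝ, κ = τ ^ 2 := ⟨_, rfl⟩
  have hκ0 : 0 < κ := by rw [hκ]; positivity
  have hκ1 : κ ≤ 1 := by rw [hκ]; exact pow_le_one₀ hτ0.le hτ1
  obtain ⟨e, he⟩ : ∃ e : ℝ, e = κ * η / 2 := ⟨_, rfl⟩
  have he0 : 0 < e := by rw [he]; positivity
  obtain ⟨P, hP1, hP2, hP3⟩ := s_appr m hm hE U e he0
  have hPA : App m U P e := ⟨hP1, hP2, hP3⟩
  obtain ⟨q, hq, hTor⟩ := Pool.Agent.W681.TF.clss.2.2 P hP1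
  have hq0 : (0 : ℝ) < q := by exact_mod_cast hq
  -- the fine approximation
  obtain ⟨e', he'⟩ : ∃ e' : ℝ, e' = min e (τ ^ 2 / (2 * q)) := ⟨_, rfl⟩
  have he'0 : 0 < e' := by rw [he']; exact lt_min he0 (by positivity)
  have he'1 : e' ≤ e := by rw [he']; exact min_le_left _ _
  have he'2 : 2 * e' * q ≤ τ ^ 2 := by
    have h1 : e' ≤ τ ^ 2 / (2 * q) := by rw [he']; exact min_le_right _ _
    rw [le_div_iff₀ (by positivity)] at h1
    linarith
  obtain ⟨P', hP'1, hP'2, hP'3⟩ := s_appr m hm hE U e' he'0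
  have hP'A : App m U P' e' := ⟨hP'1, hP'2, hP'3⟩
  have hee : (e + e') / κ ≤ η := by
    rw [div_le_iff₀ hκ0]
    have : e = κ * η / 2 := he
    linarith
  have heη : e ≤ η := by
    rw [he]
    nlinarith
  obtain ⟨r, hr1, hr2⟩ := Pool.Agent.W681.TF.lev m hm U P P' e e' ρ κ hκ0 hPA hP'A hmU
    (by linarith) q hq
  -- the step
  obtain ⟨P₀, hP₀⟩ := s_per 1 (fun _ => P) (fun _ => q) (fun _ => q * D)
    (fun _ _ => ⟨hTor, hq, Nat.mul_pos hq hD, Dvd.intro _ rfl⟩)
  obtain ⟨p, hpN, hp⟩ := Nat.exists_infinite_primes (max P₀ ⌈1 / η⌉₊)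
  have hp0 : (0 : ℝ) < p := by exact_mod_cast hp.pos
  have hpη : 1 ≤ η * p := by
    have h1 : 1 / η ≤ p :=
      (Nat.le_ceil _).trans (by exact_mod_cast (le_max_right _ _).trans hpN)
    rw [div_le_iff₀ hη0] at h1
    linarith
  obtain ⟨t, ht⟩ := hP₀ p hp ((le_max_left _ _).trans hpN) η hη0
  obtain ⟨ht1, ht2⟩ := ht 0 (by norm_num)
  obtain ⟨K, hK⟩ : ∃ K : ℤ, K = ((q * D : ℕ) : ℤ) * t := ⟨_, rfl⟩
  rw [← hK] at ht1 ht2
  have hqK : (q : ℤ) ∣ K := by
    rw [hK]
    exact ⟨(D : ℤ) * t, by push_cast; ring⟩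
  -- the null set
  obtain ⟨f, hf⟩ : ∃ f : ℤ →ᵇ ℝ, f = ind U - P' := ⟨_, rfl⟩
  have hf1 : ∀ n, |f n| ≤ 1 := by
    intro n
    rw [hf, sub_app, abs_le]
    have h1 := ind01 U n
    have h2 := hP'2 n
    constructor <;> linarith [h1.1, h1.2, h2.1, h2.2]
  have hnull : Null {a : ℤ | e' < |m (f * sh a f)|} := by
    have h1T : co (1 : ℤ →ᵇ ℝ) ∈ Trig := by
      have h : co (1 : ℤ →ᵇ ℝ) = 1 := by
        ext n
        simp
      rw [h]
      exact Pool.Agent.W975.FN.trg.1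
    have h1 := hP'3 1 h1T (fun n => by simp) f hf1
    rw [one_mul, ← hf] at h1
    exact h1
  obtain ⟨L0, hL0⟩ := cnt hnull (D * q) (Nat.mul_pos hD hq) he'0
  obtain ⟨H, hH⟩ : ∃ H : ℕ, H = max L0 ⌈(t : ℝ) * p / η⌉₊ + 1 := ⟨_, rfl⟩
  have hH1 : 1 ≤ H := by omega
  have hHL : L0 ≤ H := by
    rw [hH]
    exact (le_max_left _ _).trans (Nat.le_succ _)
  have hHt : (t : ℝ) * p ≤ η * H := by
    have h1 : (t : ℝ) * p / η ≤ H := by
      refine (Nat.le_ceil _).trans ?_
      rw [hH]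
      exact_mod_cast (le_max_right _ _).trans (Nat.le_succ _)
    rw [div_le_iff₀ hη0] at h1
    linarith
  have hH0 : (0 : ℝ) < H := by exact_mod_cast hH1
  refine ⟨q, r, H, hq, hH1, ?_⟩
  intro A B s hA hyp
  obtain ⟨c, hc⟩ : ∃ c : ℤ → ℤ, ∀ i, c i = -(((D * q : ℕ) : ℤ) * i) + q * s := ⟨_, fun _ => rfl⟩
  have hqc : ∀ i, (q : ℤ) ∣ c i := by
    intro i
    rw [hc]
    exact ⟨-((D : ℤ) * i) + s, by push_cast; ring⟩
  -- rewriting
  have eB : ind {y : ℤ | (q : ℤ) ∣ y - r ∧ y ∈ B} = cls q r * ind B := by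
    ext n
    rw [mul_app]
    rcases cls_sp q r n with h | h
    · rw [h.1, one_mul]
      by_cases hn : n ∈ B
      · have h1 : n ∈ {y : ℤ | (q : ℤ) ∣ y - r ∧ y ∈ B} := ⟨h.2, hn⟩
        rw [ind_mem hn, ind_mem h1]
      · have h1 : n ∉ {y : ℤ | (q : ℤ) ∣ y - r ∧ y ∈ B} := fun h' => hn h'.2
        rw [ind_notMem hn, ind_notMem h1]
    · have h1 : n ∉ {y : ℤ | (q : ℤ) ∣ y - r ∧ y ∈ B} := fun h' => h.2 h'.1
      rw [h.1, zero_mul, ind_notMem h1]
  have eU : ∀ i : ℕ, ind {y : ℤ | (q : ℤ) ∣ y - r ∧ y ∈ B ∧ y - D * (q * i) + q * s ∈ U} =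
      cls q r * ind B * sh (c i) (ind U) := by
    intro i
    have e1 : ∀ n : ℤ, n + c i = n - D * (q * i) + q * s := by
      intro n
      rw [hc]
      push_cast
      ring
    ext n
    rw [mul_app, mul_app, sh_apply, e1]
    rcases cls_sp q r n with h | h
    · rw [h.1, one_mul]
      by_cases hn : n ∈ B
      · rw [ind_mem hn, one_mul]
        by_cases hu : n - D * (q * i) + q * s ∈ U
        · have h1 : n ∈ {y : ℤ | (q : ℤ) ∣ y - r ∧ y ∈ B ∧ y - D * (q * i) + q * s ∈ U} :=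
            ⟨h.2, hn, hu⟩
          rw [ind_mem hu, ind_mem h1]
        · have h1 : n ∉ {y : ℤ | (q : ℤ) ∣ y - r ∧ y ∈ B ∧ y - D * (q * i) + q * s ∈ U} :=
            fun h' => hu h'.2.2
          rw [ind_notMem hu, ind_notMem h1]
      · have h1 : n ∉ {y : ℤ | (q : ℤ) ∣ y - r ∧ y ∈ B ∧ y - D * (q * i) + q * s ∈ U} :=
          fun h' => hn h'.2.1
        rw [ind_notMem hn, zero_mul, ind_notMem h1]
    · have h1 : n ∉ {y : ℤ | (q : ℤ) ∣ y - r ∧ y ∈ B ∧ y - D * (q * i) + q * s ∈ U} :=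
        fun h' => h.2 h'.1
      rw [h.1, zero_mul, zero_mul, ind_notMem h1]
  simp only [eU] at hyp
  rw [eB]
  -- the sums over the almost periodic part
  have hvar := var hm hf1 he'0.le hA ((D * q : ℕ) : ℤ) (q * s) (fun j S hS h => hL0 H hHL j S hS h)
  have hs3 := step3 hm hq r B U (P := P) (P' := P') hτ0.le hA c hqc hyp
    (by
      simp only [hc]
      rw [hf] at hvar
      exact hvar) he'2 (by rw [← hκ]; exact hr2)
  -- averaging
  have hμ0 : ∀ i : ℕ, 0 ≤ (q : ℝ) * m (cls q r * ind B * sh (c i) P) := by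
    intro i
    refine mul_nonneg hq0.le (hm.pos _ fun n => ?_)
    rw [mul_app, mul_app, sh_apply]
    exact mul_nonneg (mul_nonneg (ind01 _ _).1 (ind01 _ _).1) (hP2 _).1
  obtain ⟨i0, hi0, hav⟩ := fin_avg hA (fun i : ℕ => (q : ℝ) * m (cls q r * ind B * sh (c i) P)) hμ0
    (lam := η / (3 * τ)) hH1 hp.one_lt.le (by positivity) hη0 hHt (by
      rw [← mul_sum]
      calc η / (3 * τ) * ((q : ℝ) * ∑ i ∈ A, m (cls q r * ind B * sh (c i) P)) ≤
          η / (3 * τ) * (3 * τ * H) := mul_le_mul_of_nonneg_left hs3 (by positivity)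
        _ = η * H := by field_simp)
  obtain ⟨Az, hAz⟩ : ∃ Az : Finset ℕ, Az = (range p).filter (fun z => i0 + t * z ∈ A) := ⟨_, rfl⟩
  rw [← hAz] at hav
  obtain ⟨α, hα⟩ : ∃ α : ℝ, α = (A.card : ℝ) / H := ⟨_, rfl⟩
  have hα0 : 0 ≤ α := by rw [hα]; positivity
  rw [← hα] at hav
  obtain ⟨Sg, hSg⟩ : ∃ Sg : ℝ, Sg = ∑ z ∈ Az, (q : ℝ) *
      m (cls q r * ind B * sh (c ((i0 + t * z : ℕ) : ℤ)) P) := ⟨_, rfl⟩
  rw [← hSg] at hav
  have hSg0 : 0 ≤ Sg := by
    rw [hSg]
    exact sum_nonneg fun z _ => hμ0 _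
  have hAzc : (Az.card : ℝ) ≤ p := by
    have : Az.card ≤ p := by
      rw [hAz]
      exact (card_filter_le _ _).trans (by rw [card_range])
    exact_mod_cast this
  have hl0 : 0 ≤ η / (3 * τ) := by positivity
  have hAz1 : (α - 3 * η) * p ≤ Az.card := by
    have := mul_nonneg hl0 hSg0
    linarith
  have hSg1 : Sg ≤ 6 * τ * p / η := by
    have h1 : η / (3 * τ) * Sg ≤ 2 * p := by nlinarith
    rw [div_mul_eq_mul_div, div_le_iff₀ (by positivity)] at h1
    rw [le_div_iff₀ hη0]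
    linarith
  -- the choice of `y`
  obtain ⟨β, hβ⟩ : ∃ β : ℝ, β = (q : ℝ) * m (cls q r * ind B) := ⟨_, rfl⟩
  have hβ0 : 0 ≤ β := by
    rw [hβ]
    refine mul_nonneg hq0.le (hm.pos _ fun n => ?_)
    rw [mul_app]
    exact mul_nonneg (ind01 _ _).1 (ind01 _ _).1
  obtain ⟨lam2, hlam2⟩ : ∃ lam2 : ℝ, lam2 = η ^ 2 / (6 * τ * p) := ⟨_, rfl⟩
  have hlam20 : 0 < lam2 := by rw [hlam2]; positivity
  obtain ⟨F, hF⟩ : ∃ F : ℤ →ᵇ ℝ, F = cls q r * ∑ w ∈ range p, sh (K * w) (ind B) -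
      lam2 • (cls q r * ∑ z ∈ Az, ∑ w ∈ range p,
        sh (K * w) (ind B * sh (c ((i0 + t * z : ℕ) : ℤ)) P)) := ⟨_, rfl⟩
  have hmF : (q : ℝ) * m F = p * β - lam2 * (p * Sg) := by
    have e1 : m (cls q r * ∑ w ∈ range p, sh (K * w) (ind B)) = p * m (cls q r * ind B) := by
      rw [mul_sum, map_sum]
      have : ∀ w ∈ range p, m (cls q r * sh (K * w) (ind B)) = m (cls q r * ind B) := fun w _ =>
        m_cls_sh hm (Dvd.dvd.mul_right hqK _) _
      rw [sum_congr rfl this, sum_const, card_range, nsmul_eq_mul]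
    have e2 : m (cls q r * ∑ z ∈ Az, ∑ w ∈ range p,
        sh (K * w) (ind B * sh (c ((i0 + t * z : ℕ) : ℤ)) P)) =
        ∑ z ∈ Az, p * m (cls q r * ind B * sh (c ((i0 + t * z : ℕ) : ℤ)) P) := by
      rw [mul_sum, map_sum]
      refine sum_congr rfl fun z _ => ?_
      rw [mul_sum, map_sum]
      have : ∀ w ∈ range p, m (cls q r * sh (K * w) (ind B * sh (c ((i0 + t * z : ℕ) : ℤ)) P)) =
          m (cls q r * ind B * sh (c ((i0 + t * z : ℕ) : ℤ)) P) := fun w _ => by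
        rw [m_cls_sh hm (Dvd.dvd.mul_right hqK _), mul_assoc]
      rw [sum_congr rfl this, sum_const, card_range, nsmul_eq_mul]
    rw [hF, map_sub, map_smul, smul_eq_mul, e1, e2, hSg, hβ, ← mul_sum, ← mul_sum]
    ring
  have hmF1 : (p : ℝ) * (β - 2 * η) < q * m F := by
    rw [hmF]
    have h1 : lam2 * (p * Sg) ≤ η * p := by
      calc lam2 * (p * Sg) ≤ lam2 * (p * (6 * τ * p / η)) :=
            mul_le_mul_of_nonneg_left (mul_le_mul_of_nonneg_left hSg1 hp0.le) hlam20.le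
        _ = η * p := by
            rw [hlam2]
            field_simp
    have h2 : 0 < η * p := by positivity
    linarith
  have hFe : ∀ y, F y = cls q r y * (∑ w ∈ range p, sh (K * w) (ind B)) y -
      lam2 * (cls q r y * (∑ z ∈ Az, ∑ w ∈ range p,
        sh (K * w) (ind B * sh (c ((i0 + t * z : ℕ) : ℤ)) P)) y) := by
    intro y
    rw [hF]
    rfl
  obtain ⟨y, hy, hyF⟩ := choose_y hm hq r F (fun y hy => by
    have h0 : cls q r y = 0 := by
      rcases cls_sp q r y with h | h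
      · exact absurd h.2 hy
      · exact h.1
    rw [hFe, h0]
    ring) hmF1
  obtain ⟨By, hBy⟩ : ∃ By : Finset ℕ, By = (range p).filter (fun w : ℕ => y + K * w ∈ B) := ⟨_, rfl⟩
  obtain ⟨Q, hQ⟩ : ∃ Q : ℤ → ℝ, ∀ v, Q v = P (y + c (i0 : ℤ) + K * v) := ⟨_, fun _ => rfl⟩
  have hFy : F y = By.card - lam2 * ∑ z ∈ Az, ∑ w ∈ By, Q ((w : ℤ) - z) := by
    have h1 : cls q r y = 1 := by
      rcases cls_sp q r y with h | h
      · exact h.1
      · exact absurd hy h.2
    rw [hFe, h1, one_mul, one_mul, sum_apply', sum_apply']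
    congr 1
    · rw [hBy, card_filter]
      push_cast
      refine sum_congr rfl fun w _ => ?_
      rw [sh_apply]
      split_ifs with h
      · exact ind_mem h
      · exact ind_notMem h
    · congr 1
      refine sum_congr rfl fun z _ => ?_
      rw [sum_apply', hBy, sum_filter]
      refine sum_congr rfl fun w _ => ?_
      rw [sh_apply, mul_app, sh_apply]
      split_ifs with h
      · rw [ind_mem h, one_mul, hQ]
        congr 1
        rw [hc, hc, hK]
        push_cast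
        ring
      · rw [ind_notMem h, zero_mul]
  rw [hFy] at hyF
  have hQ01 : ∀ v, 0 ≤ Q v ∧ Q v ≤ 1 := fun v => by rw [hQ]; exact hP2 _
  have hΨ0 : 0 ≤ ∑ z ∈ Az, ∑ w ∈ By, Q ((w : ℤ) - z) :=
    sum_nonneg fun z _ => sum_nonneg fun w _ => (hQ01 _).1
  have hByc : (By.card : ℝ) ≤ p := by
    have : By.card ≤ p := by
      rw [hBy]
      exact (card_filter_le _ _).trans (by rw [card_range])
    exact_mod_cast this
  have hBy1 : (β - 2 * η) * p ≤ By.card := by
    have := mul_nonneg hlam20.le hΨ0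
    linarith
  have hΨ : ∑ z ∈ Az, ∑ w ∈ By, Q ((w : ℤ) - z) ≤ η ^ 4 * p ^ 2 := by
    have h1 : lam2 * ∑ z ∈ Az, ∑ w ∈ By, Q ((w : ℤ) - z) ≤ 2 * p := by nlinarith
    rw [hlam2, div_mul_eq_mul_div, div_le_iff₀ (by positivity)] at h1
    have h2 : (2 : ℝ) * p * (6 * τ * p) = η ^ 2 * (η ^ 4 * p ^ 2) := by
      rw [hτ]
      ring
    rw [h2] at h1
    exact le_of_mul_le_mul_left h1 (by positivity)
  have hsum : (ρ - 3 * η) * p ≤ ∑ v ∈ range p, Q (v : ℤ) := by
    have h1 := lemA hm (P := P) (K := K) (η := η) (c := ρ - 2 * η) (x := y + c (i0 : ℤ)) hq hqK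
      ht2 (le_trans (div_le_div_of_nonneg_right (by linarith) hq0.le) hr1) (by
        have e1 : y + c (i0 : ℤ) - r = (y - r) + c (i0 : ℤ) := by ring
        rw [e1]
        exact dvd_add hy (hqc _))
    simp only [hQ]
    linarith
  have hfin := comb (Pool.Agent.W824.HF.rob Pool.Agent.W333.HF.pol) hp hη0 hη1 hηρ hpη
    (A := Az) (B := By) (by rw [hAz]; exact filter_subset _ _)
    (by rw [hBy]; exact filter_subset _ _) Q (fun v => (hQ01 v).1) (fun v => (hQ01 v).2)
    (fun v => by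
      rw [hQ, hQ]
      have h1 := ht1 (y + c (i0 : ℤ) + K * v)
      have e1 : y + c (i0 : ℤ) + K * (v + p) = y + c (i0 : ℤ) + K * v + K * p := by ring
      rw [e1]
      exact h1) hsum hΨ
  rw [← hβ, ← hα]
  have hε' : ε = 100 * η := by rw [hη]; ring
  rcases hfin with h | h | h
  · left
    have h1 : α ≤ 4 * η := by
      have h2 : (α - 3 * η) * p ≤ η * p := hAz1.trans h
      have := le_of_mul_le_mul_right h2 hp0
      linarith
    rw [hα, div_le_iff₀ hH0] at h1
    refine h1.trans ?_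
    rw [hε']
    nlinarith
  · right
    left
    have h2 : (β - 2 * η) * p ≤ (2 * η) * p := by linarith
    have := le_of_mul_le_mul_right h2 hp0
    linarith
  · right
    right
    have h2 : (α + β - 5 * η) * p ≤ (1 - ρ + 9 * η) * p := by linarith
    have := le_of_mul_le_mul_right h2 hp0
    linarith

end Pool.Agent.N679.SD
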