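import Pool.Agent.W142.TF.Stm4

set_option autoImplicit false
open Filter Topology Finset
open scoped BoundedContinuousFunction

/-!
# Project SD (helper679): slope dichotomy for MP_8bf9c2_nt, more than half of the constant terms

Statements of the independent parts. `ind`, `sh`, `IsMean`, `Extr` are in `Pool.Agent.W634.BQ.Stms`,
`Null`, `Trig` in `Pool.Agent.W27.FB.Stm`, `App`, `cls`, `Tor` in `Pool.Agent.W142.TF.Stm2/3`.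
-/

namespace Pool.Agent.N679.SD

open Pool.Agent.W634.BQ Pool.Agent.W505.BQ Pool.Agent.W27.FB Pool.Agent.W142.TF

/-- SD-KN : an inequality of Kneser type. If almost no pair `(i, y)`, `i ∈ A`, `y ∈ B` (in a suitable residue
class) satisfies `y - D q i + q s ∈ U`, then the densities of `A`, `B`, `U` sum up to at most `1 + ε`. -/
def S_KN : Prop := ∀ (ρ ε : ℝ), 0 < ε → ε < ρ → ρ ≤ 1 → ∃ τ : ℝ, 0 < τ ∧ ∀ D : ℕ, 1 ≤ D → ∀ U : Set ℤ,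
  (∀ L₀ : ℕ, ∃ L : ℕ, L₀ ≤ L ∧ ∃ u : ℤ, ρ * L ≤ ({n : ℕ | n < L ∧ u + (n : ℤ) ∈ U}.ncard : ℝ)) →
  ∃ m : (ℤ →ᵇ ℝ) →ₗ[ℝ] ℝ, IsMean m ∧ ∃ (q : ℕ) (r : ℤ) (H : ℕ), 1 ≤ q ∧ 1 ≤ H ∧
    ∀ (A : Finset ℕ) (B : Set ℤ) (s : ℤ), A ⊆ range H →
      (q : ℝ) * ∑ i ∈ A, m (ind {y : ℤ | (q : ℤ) ∣ y - r ∧ y ∈ B ∧ y - D * (q * i) + q * s ∈ U}) ≤ τ * H →
      (A.card : ℝ) ≤ ε * H ∨ q * m (ind {y : ℤ | (q : ℤ) ∣ y - r ∧ y ∈ B}) ≤ ε ∨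
        (A.card : ℝ) / H + q * m (ind {y : ℤ | (q : ℤ) ∣ y - r ∧ y ∈ B}) ≤ 1 - ρ + ε

end Pool.Agent.N679.SD
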